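import Pool.Graph.R_pool_sql_team_seeded_63374d34.N797.PW.J_SML
import Pool.Graph.R_pool_sql_team_seeded_63374d34.N797.PW.J_TAY
import Pool.Graph.R_pool_sql_team_seeded_63374d34.N797.PW.J_SY
import Pool.Graph.R_pool_sql_team_seeded_63374d34.N797.PW.J_REAL
import Pool.Graph.R_pool_sql_team_seeded_63374d34.N797.PW.J_JB
import Pool.Graph.R_seed8.Y926.LZ.Coef

/-!
# The forms are small
-/

set_option autoImplicit false

open Polynomial Pool.Agent.H337R2 Pool.Agent.W165.OZ Pool.Agent.Y926.LZ Pool.Agent.Y926.TW Pool.Agent.N797.PW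

namespace Pool.Agent.H494.DZ

noncomputable section

/-- the jets of the multipliers at the near integers -/
theorem jet_le {n l r T β : ℕ} (hn : 1 ≤ n) (hr : 2 ≤ r) (hT : T ≤ r * n) :
    ∑ i ∈ Finset.range (β + 1), |PowerSeries.coeff i (TS (T : ℚ) (gq n l))| ≤
      (54 * (r : ℚ) ^ 2) ^ (l + n) := by
  have hr2 : (2 : ℚ) ≤ r := by exact_mod_cast hr
  have hn0 : (0 : ℚ) < n := by exact_mod_cast hn
  have hT' : (T : ℚ) ≤ (r : ℚ) * n := by exact_mod_cast hT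
  have hT0 : (0 : ℚ) ≤ T := by positivity
  have hg := Gb_le2 (n := n) (T := β) (c := (T : ℚ)) (c' := (r : ℚ) * n) (B := 1) (m := l)
    hn le_rfl (by nlinarith) (by linarith) hT'
  have hq : (r : ℚ) * n / n = r := by field_simp
  rw [hq] at hg
  have hbase : (1 : ℚ) ≤ 54 * (r : ℚ) ^ 2 := by nlinarith
  have e1 : Nm β 1 (TS (T : ℚ) ((Gb n l).comp (yp n))) =
      ∑ i ∈ Finset.range (β + 1), |PowerSeries.coeff i (TS (T : ℚ) (gq n l))| := by
    unfold Nm gq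
    exact Finset.sum_congr rfl fun i _ => by rw [one_pow, mul_one]
  rw [← e1]
  refine hg.trans ?_
  have h1 : (54 * ((1 : ℕ) : ℚ) ^ 4 * (r : ℚ) ^ 2) = 54 * (r : ℚ) ^ 2 := by push_cast; ring
  rw [h1]
  apply pow_le_pow_right₀ hbase
  have h2 := Nat.mul_div_le l n
  calc n * (l / n + 1) = n * (l / n) + n := by ring
    _ ≤ l + n := by omega

/-- the near terms -/
theorem Tm_near {h n T r β B w l : ℕ} {c : ℕ → ℕ → ℤ} {δ : ℚ} (hn : 1 ≤ n) (hr : 2 ≤ r)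
    (hl : l ≤ w * n) (hβ : β < B) (hδ : 0 ≤ δ)
    (hB : ∀ t : ℤ, 1 ≤ t → t ≤ r * n → ∀ β < B, |ev h n c β t| ≤ δ)
    (hz : ∀ f : ℚ[X], f.natDegree ≤ 2 * (w * n) + 1 → LF h n c (fun k => TS (-(k : ℚ)) f) = 0)
    (hT1 : 1 ≤ T) (hT : T ≤ r * n) :
    |Tm h n c (gq n l) β (T : ℤ)| ≤ (54 * (r : ℚ) ^ 2) ^ (l + n) * δ := by
  rw [t_tay]
  have h3 := hz (gq n l /ₘ (X - C (((T : ℤ) : ℚ))) ^ (β + 1)) (by
    have h4 := Polynomial.natDegree_divByMonic (gq n l)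
      ((Polynomial.monic_X_sub_C (((T : ℤ) : ℚ))).pow (β + 1))
    have h5 := SML.deg_gq n l
    omega)
  rw [SML.nd_eq hT1]
  unfold LF at h3
  rw [h3, mul_zero, add_zero]
  have h4 := jet_le (n := n) (l := l) (β := β) hn hr hT
  calc |∑ i ∈ Finset.range (β + 1), (-1) ^ i *
        PowerSeries.coeff i (TS (((T : ℤ) : ℚ)) (gq n l)) * ev h n c (β - i) (T : ℤ)|
      ≤ ∑ i ∈ Finset.range (β + 1), |PowerSeries.coeff i (TS (T : ℚ) (gq n l))| * δ := by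
        refine (Finset.abs_sum_le_sum_abs _ _).trans (Finset.sum_le_sum fun i _ => ?_)
        rw [abs_mul, abs_mul, abs_pow, abs_neg, abs_one, one_pow, one_mul, Int.cast_natCast]
        exact mul_le_mul_of_nonneg_left
          (hB (T : ℤ) (by exact_mod_cast hT1) (by exact_mod_cast hT) (β - i) (by omega)) (abs_nonneg _)
    _ = (∑ i ∈ Finset.range (β + 1), |PowerSeries.coeff i (TS (T : ℚ) (gq n l))|) * δ := by
        rw [Finset.sum_mul]
    _ ≤ _ := mul_le_mul_of_nonneg_right h4 hδ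

/-- **The real forms are small** -/
theorem dsml {h ν β B w r l H W : ℕ} {c : ℕ → ℕ → ℤ} (hβ2 : 2 ≤ β) (hβ : β < B) (hr : 4 ≤ r)
    (hl : l ≤ w * (2 * ν + 1)) (hA : AS h (2 * ν + 1) c) (hc : ∀ i k, |c i k| ≤ (H : ℤ))
    (hTA : TA h (2 * ν + 1) c (w * (2 * ν + 1)))
    (hB : ∀ t : ℤ, 1 ≤ t → t ≤ r * (2 * ν + 1 : ℕ) → ∀ β < B,
      |ev h (2 * ν + 1) c β t| < 1 / 2 ^ (W * (2 * ν + 1))) :
    |LR h (2 * ν + 1) c (gq (2 * ν + 1) l) β| ≤
      2 * (H * (2 * (ν : ℝ) + 1) * 8 ^ (l + (2 * ν + 1)) * (2 ^ (β + 1) * r ^ 2 *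
        (2 / (r : ℝ)) ^ (2 * (w * (2 * ν + 1)) + 2 - 2 * l) * (2 * (ν : ℝ) + 1) ^ 2) +
        (54 * (r : ℝ) ^ 2) ^ (l + (2 * ν + 1)) / 2 ^ (W * (2 * ν + 1)) *
          (r * (2 * (ν : ℝ) + 1)) ^ 2) := by
  set n := 2 * ν + 1 with hn'
  have hn : 1 ≤ n := by omega
  have hz : ∀ f : ℚ[X], f.natDegree ≤ 2 * (w * n) + 1 →
      LF h n c (fun k => TS (-(k : ℚ)) f) = 0 := fun f hf => SML.LF_zero t_sy hn hA hTA hf
  have hR := t_real h n c (gq n l) β hβ2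
  have hnn : (2 * (ν : ℝ) + 1) = (n : ℝ) := by rw [hn']; push_cast; ring
  rw [hnn]
  set K : ℝ := H * n * 8 ^ (l + n) * (2 ^ (β + 1) * r ^ 2 *
    (2 / (r : ℝ)) ^ (2 * (w * n) + 2 - 2 * l) * n ^ 2) with hK
  set N : ℝ := (54 * (r : ℝ) ^ 2) ^ (l + n) / 2 ^ (W * n) with hN
  have hK0 : 0 ≤ K := by rw [hK]; positivity
  have hN0 : 0 ≤ N := by rw [hN]; positivity
  have h5 : ∀ t : ℕ, |((Tm h n c (gq n l) β ((t : ℤ) + 1) : ℚ) : ℝ)| ≤
      (K + N * (r * n) ^ 2) * (1 / ((t : ℝ) + 1) ^ 2) := by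
    intro t
    have h6 : ((t : ℤ) + 1) = ((t + 1 : ℕ) : ℤ) := by push_cast; ring
    rw [h6]
    by_cases hT : t + 1 ≤ r * n
    · have h7 := Tm_near (h := h) (c := c) (δ := 1 / 2 ^ (W * n)) hn (by omega : 2 ≤ r) hl hβ
        (by positivity) (fun t h1 h2 β hβ => (hB t h1 (by push_cast at h2 ⊢; exact h2) β hβ).le) hz
        (by omega : 1 ≤ t + 1) hT
      have h8 : ((|Tm h n c (gq n l) β ((t + 1 : ℕ) : ℤ)| : ℚ) : ℝ) ≤ _ := Rat.cast_le.2 h7
      rw [Rat.cast_abs] at h8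
      refine h8.trans ?_
      have h9 : (((54 * (r : ℚ) ^ 2) ^ (l + n) * (1 / 2 ^ (W * n)) : ℚ) : ℝ) = N := by
        rw [hN]
        push_cast
        ring
      rw [h9]
      have h10 : ((t : ℝ) + 1) ≤ r * n := by exact_mod_cast hT
      have h11 : 1 ≤ (r * (n : ℝ)) ^ 2 * (1 / ((t : ℝ) + 1) ^ 2) := by
        rw [mul_one_div, le_div_iff₀ (by positivity), one_mul]
        exact pow_le_pow_left₀ (by positivity) h10 2
      calc N = N * 1 := (mul_one N).symm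
        _ ≤ N * ((r * (n : ℝ)) ^ 2 * (1 / ((t : ℝ) + 1) ^ 2)) := mul_le_mul_of_nonneg_left h11 hN0
        _ = N * (r * n) ^ 2 * (1 / ((t : ℝ) + 1) ^ 2) := by ring
        _ ≤ (K + N * (r * n) ^ 2) * (1 / ((t : ℝ) + 1) ^ 2) :=
            mul_le_mul_of_nonneg_right (by linarith) (by positivity)
    · have h7 := SML.Tm_le t_jb (β := β) (B := B) hn hr hl hc hz (by omega : r * n < t + 1)
      have h8 : ((|Tm h n c (gq n l) β ((t + 1 : ℕ) : ℤ)| : ℚ) : ℝ) ≤ _ := Rat.cast_le.2 h7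
      rw [Rat.cast_abs] at h8
      refine h8.trans ?_
      have h9 : (0 : ℝ) ≤ N * (r * n) ^ 2 := by positivity
      calc _ = K * (1 / ((t : ℝ) + 1) ^ 2) := by
            rw [hK]
            push_cast
            ring
        _ ≤ (K + N * (r * n) ^ 2) * (1 / ((t : ℝ) + 1) ^ 2) :=
            mul_le_mul_of_nonneg_right (by linarith) (by positivity)
  have h6 := SML.inv_sq_sum.mul_left (K + N * (r * n) ^ 2)
  have h7 : |LR h n c (gq n l) β| ≤ (K + N * (r * n) ^ 2) * (Real.pi ^ 2 / 6) := by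
    rw [abs_le]
    constructor
    · exact hasSum_le (fun s => (abs_le.1 (h5 s)).1) h6.neg hR
    · exact hasSum_le (fun s => (abs_le.1 (h5 s)).2) hR h6
  refine h7.trans ?_
  have hpi : Real.pi ^ 2 / 6 ≤ 2 := by
    have h8 := Real.pi_lt_d2
    have h9 := Real.pi_pos
    nlinarith
  calc (K + N * (r * n) ^ 2) * (Real.pi ^ 2 / 6) ≤ (K + N * (r * n) ^ 2) * 2 :=
        mul_le_mul_of_nonneg_left hpi (by positivity)
    _ = _ := by ring

end

end Pool.Agent.H494.DZ
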