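import Pool.Agent.H494.DZ.Tiny
import Pool.Agent.H494.DZ.Sml

/-!
# The contradiction
-/

set_option autoImplicit false

open Polynomial Pool.Agent.H337R2 Pool.Agent.W165.OZ Pool.Agent.Y926.LZ Pool.Agent.Y926.TW Pool.Agent.N797.PW Filter

namespace Pool.Agent.H494.DZ

noncomputable section

/-- the real form is a combination of the rational forms -/
theorem LR_eq {h ν b l A : ℕ} {c : ℕ → ℕ → ℤ} (hA : AS h (2 * ν + 1) c) (hβ : Even b)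
    (θ : Fin A → ℝ) (z0 : ℕ → ℚ) (za : Fin A → ℕ → ℚ)
    (hz : ∀ j, Odd j → b < j → j ≤ 2 * h + b → zr j = z0 j + ∑ a, θ a * za a j) :
    LR h (2 * ν + 1) c (gq (2 * ν + 1) l) b =
      (Lz z0 h (2 * ν + 1) c (gq (2 * ν + 1) l) b : ℝ) +
        ∑ a, θ a * (Hom (za a) h (2 * ν + 1) c (gq (2 * ν + 1) l) b : ℝ) := by
  unfold LR Lz Hom
  push_cast
  simp only [Finset.mul_sum]
  rw [Finset.sum_comm (s := (Finset.univ : Finset (Fin A)))]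
  rw [sub_add_eq_add_sub, ← Finset.sum_add_distrib]
  congr 1
  refine Finset.sum_congr rfl fun i hi => ?_
  rw [Finset.mem_Icc] at hi
  rcases Nat.even_or_odd i with h1 | h1
  · rw [INT.rh_even hA h1 hi.1]
    simp
  · rw [hz (i + b) (h1.add_even hβ) (by omega) (by omega), mul_add, Finset.mul_sum]
    congr 1
    exact Finset.sum_congr rfl fun a _ => by ring

/-- a common denominator -/
theorem exists_den {A N : ℕ} (z0 : ℕ → ℚ) (za : Fin A → ℕ → ℚ) :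
    ∃ q : ℕ, 1 ≤ q ∧ (∀ j ≤ N, ∃ m : ℤ, (q : ℚ) * z0 j = m) ∧
      ∀ a, ∀ j ≤ N, ∃ m : ℤ, (q : ℚ) * za a j = m := by
  have hd : ∀ (z : ℚ) (Q : ℕ), z.den ∣ Q → ∃ m : ℤ, (Q : ℚ) * z = m := by
    rintro z _ ⟨k, rfl⟩
    refine ⟨k * z.num, ?_⟩
    push_cast
    have h1 : (z.den : ℚ) * z = z.num := by
      rw [mul_comm]
      exact_mod_cast Rat.mul_den_eq_num z
    calc (z.den : ℚ) * k * z = k * ((z.den : ℚ) * z) := by ring
      _ = _ := by rw [h1]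
  refine ⟨(∏ j ∈ Finset.range (N + 1), (z0 j).den) *
    ∏ a : Fin A, ∏ j ∈ Finset.range (N + 1), (za a j).den, ?_, ?_, ?_⟩
  · refine Nat.mul_pos (Finset.prod_pos fun j _ => (z0 j).den_pos) (Finset.prod_pos fun a _ =>
      Finset.prod_pos fun j _ => (za a j).den_pos)
  · intro j hj
    exact hd _ _ ((Finset.dvd_prod_of_mem _ (Finset.mem_range.2 (by omega))).mul_right _)
  · intro a j hj
    refine hd _ _ (Dvd.dvd.mul_left ?_ _)
    exact (Finset.dvd_prod_of_mem (fun j => (za a j).den) (Finset.mem_range.2 (by omega))).trans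
      (Finset.dvd_prod_of_mem (fun a => ∏ j ∈ Finset.range (N + 1), (za a j).den) (Finset.mem_univ a))

/-- **The core.** -/
theorem dcore {A M b γ w h R x W J1 J2 : ℕ} (hb : Even b) (hb2 : 2 ≤ b) (hh : 1 ≤ h) (hM : 1 ≤ M)
    (hR : 2 ≤ R) (hγw : γ ≤ w) (hJ1 : 2 * h ≤ 2 ^ J1 * w)
    (hJ2 : 2 * h + 2 * (b + 2 * M) ≤ 2 ^ J2 * γ)
    (hK : (w + 1) * (5 * w + 8 * J1 * (w + 1) + 5) + A * M * ((γ + 1) * (5 * γ + 8 * J2 * (γ + 1) + 5)) +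
      2 ^ R * (b + 2 * M) * (x + W + 1) + 4 * (b + 2 * M) * (2 * h + (b + 2 * M)) ≤ x * (M * γ))
    (hsm : x + (2 * γ + 4 * J2 * (2 * γ + 2) + 1) + 3 * (γ + 1) + 1 ≤ 2 * (w - γ) * (R - 1))
    (hW : (2 * γ + 4 * J2 * (2 * γ + 2) + 1) + (γ + 1) * (2 * R + 6) + 1 ≤ W)
    (hze : 2 * (γ * ((A + 1) * M)) + 2 * w < h)
    (θ : Fin A → ℝ) (z0 : ℕ → ℚ) (za : Fin A → ℕ → ℚ)
    (hz : ∀ j, Odd j → b < j → j ≤ 2 * h + (b + 2 * M) → zr j = z0 j + ∑ a, θ a * za a j) :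
    False := by
  obtain ⟨q, hq1, hq0, hqa⟩ := exists_den (N := 2 * h + (b + 2 * M)) z0 za
  obtain ⟨Zb, hZb1, hZb⟩ : ∃ Zb : ℕ, 1 ≤ Zb ∧ ∀ (a : Fin A) (j : ℕ), j < M →
      (q : ℚ) * ∑ i ∈ Finset.Icc 1 (2 * h), |Cb (b + 2 * j) i * za a (i + (b + 2 * j))| ≤ (Zb : ℚ) := by
    refine ⟨1 + ∑ a : Fin A, ∑ j ∈ Finset.range M,
      ⌈(q : ℚ) * ∑ i ∈ Finset.Icc 1 (2 * h), |Cb (b + 2 * j) i * za a (i + (b + 2 * j))|⌉₊,
      Nat.le_add_right _ _, ?_⟩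
    intro a j hj
    refine (Nat.le_ceil _).trans ?_
    have h1 : ⌈(q : ℚ) * ∑ i ∈ Finset.Icc 1 (2 * h), |Cb (b + 2 * j) i * za a (i + (b + 2 * j))|⌉₊ ≤
        ∑ j ∈ Finset.range M,
      ⌈(q : ℚ) * ∑ i ∈ Finset.Icc 1 (2 * h), |Cb (b + 2 * j) i * za a (i + (b + 2 * j))|⌉₊ :=
      Finset.single_le_sum (f := fun j => ⌈(q : ℚ) * ∑ i ∈ Finset.Icc 1 (2 * h),
        |Cb (b + 2 * j) i * za a (i + (b + 2 * j))|⌉₊) (fun _ _ => Nat.zero_le _)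
        (Finset.mem_range.2 hj)
    have h2 : ∑ j ∈ Finset.range M,
        ⌈(q : ℚ) * ∑ i ∈ Finset.Icc 1 (2 * h), |Cb (b + 2 * j) i * za a (i + (b + 2 * j))|⌉₊ ≤
        ∑ a : Fin A, ∑ j ∈ Finset.range M,
        ⌈(q : ℚ) * ∑ i ∈ Finset.Icc 1 (2 * h), |Cb (b + 2 * j) i * za a (i + (b + 2 * j))|⌉₊ :=
      Finset.single_le_sum (f := fun a : Fin A => ∑ j ∈ Finset.range M,
        ⌈(q : ℚ) * ∑ i ∈ Finset.Icc 1 (2 * h), |Cb (b + 2 * j) i * za a (i + (b + 2 * j))|⌉₊)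
        (fun _ _ => Nat.zero_le _) (Finset.mem_univ a)
    exact_mod_cast (by omega : ⌈(q : ℚ) * ∑ i ∈ Finset.Icc 1 (2 * h),
      |Cb (b + 2 * j) i * za a (i + (b + 2 * j))|⌉₊ ≤ 1 + ∑ a : Fin A, ∑ j ∈ Finset.range M,
      ⌈(q : ℚ) * ∑ i ∈ Finset.Icc 1 (2 * h), |Cb (b + 2 * j) i * za a (i + (b + 2 * j))|⌉₊)
  have hev := (((dnum (h := h) (R := R) (B := b + 2 * M) (Zb := Zb) hh hM hJ1 (by omega) hK).and
    (dzero (A := A) (M := M) (b := b) (γ := γ) (w := w) (h := h) hze)).and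
    (tiny (h := h) (R := R) (B := b + 2 * M) (q0 := q) (by omega) hJ2 hsm hW))
  obtain ⟨ν, ⟨hν1, hν2, hν3⟩, hν4⟩ := hev.exists
  obtain ⟨c, hAS, hcH, hTA, hHom, hnear, hTC, j, hj, l, hl, hne⟩ := dsg (h := h) (ν := ν) t_ji t_jb
    (q := q) z0 za hb hh hZb1 hq1 (fun a j _ h2 => hqa a j h2) hZb hγw hν2 hν3 hν1
  have hβe : Even (b + 2 * j) := hb.add (even_two_mul j)
  -- the form is a non-zero integer
  obtain ⟨m, hm⟩ := t_int t_ji t_jz t_tay z0 h ν (b + 2 * j) (b + 2 * M) γ l q c hβe (by omega) hl hAS hTC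
    (fun i _ _ h3 => hq0 i (by omega))
  have hm0 : m ≠ 0 := by
    rintro rfl
    rw [Int.cast_zero] at hm
    rcases mul_eq_zero.1 hm with h1 | h1
    · rcases mul_eq_zero.1 h1 with h2 | h2
      · have h3 : q = 0 := by exact_mod_cast h2
        omega
      · have h3 : 0 < DW (2 * ν + 1) (2 * h + 2 * (b + 2 * M)) (2 * γ + 2) := by
          unfold DW
          exact Nat.gcd_pos_of_pos_left _ (Nat.pow_pos (Pool.Agent.W165.OZ.PRaux.Dl_pos _ 1))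
        have h4 : DW (2 * ν + 1) (2 * h + 2 * (b + 2 * M)) (2 * γ + 2) = 0 := by exact_mod_cast h2
        omega
    · exact hne h1
  -- the real form
  have hLR := LR_eq (l := l) hAS hβe θ z0 za (fun i h1 h2 h3 => hz i h1 (by omega) (by omega))
  have hH0 : ∑ a, θ a * (Hom (za a) h (2 * ν + 1) c (gq (2 * ν + 1) l) (b + 2 * j) : ℝ) = 0 := by
    refine Finset.sum_eq_zero fun a _ => ?_
    rw [hHom a j hj l hl, Rat.cast_zero, mul_zero]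
  rw [hH0, add_zero] at hLR
  have hr4 : 4 ≤ 2 ^ R := by
    calc 4 = 2 ^ 2 := by norm_num
      _ ≤ 2 ^ R := Nat.pow_le_pow_right (by norm_num) hR
  have hlw : l ≤ w * (2 * ν + 1) := hl.trans (Nat.mul_le_mul_right _ hγw)
  have hs := dsml (β := b + 2 * j) (B := b + 2 * M) (by omega) (by omega) hr4 hlw hAS hcH hTA hnear
  have ht := hν4 (b + 2 * j) (by omega) l hl
  have h1 : (1 : ℝ) ≤ |(m : ℝ)| := by
    have : (1 : ℤ) ≤ |m| := Int.one_le_abs hm0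
    exact_mod_cast this
  have h2 : (m : ℝ) = (q : ℝ) * (DW (2 * ν + 1) (2 * h + 2 * (b + 2 * M)) (2 * γ + 2) : ℝ) *
      LR h (2 * ν + 1) c (gq (2 * ν + 1) l) (b + 2 * j) := by
    rw [hLR]
    have h3 : (((q : ℚ) * (DW (2 * ν + 1) (2 * h + 2 * (b + 2 * M)) (2 * γ + 2) : ℚ) *
      Lz z0 h (2 * ν + 1) c (gq (2 * ν + 1) l) (b + 2 * j) : ℚ) : ℝ) = ((m : ℚ) : ℝ) := by rw [hm]
    push_cast at h3
    rw [← h3]
  rw [h2, abs_mul, abs_of_nonneg (by positivity)] at h1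
  have h4 := mul_le_mul_of_nonneg_left hs (by positivity :
    (0 : ℝ) ≤ (q : ℝ) * (DW (2 * ν + 1) (2 * h + 2 * (b + 2 * M)) (2 * γ + 2) : ℝ))
  linarith

end

end Pool.Agent.H494.DZ
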