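import Pool.Agent.H494.DZ.Par

/-!
# Subspaces, dimension, linear independence over number fields
-/

set_option autoImplicit false

open Pool.Agent.H337R2 Module

namespace Pool.Agent.H494.DZ

/-- coordinates with respect to a basis containing `1` -/
theorem exists_coord (W : Submodule ℚ ℝ) [FiniteDimensional ℚ W] (h1 : (1 : ℝ) ∈ W) :
    ∃ (A : ℕ) (θ : Fin A → ℝ), A + 1 = finrank ℚ W ∧
      ∀ x ∈ W, ∃ (z0 : ℚ) (z : Fin A → ℚ), x = z0 + ∑ a, θ a * z a := by
  obtain ⟨d, hd⟩ : ∃ d, d = finrank ℚ W := ⟨_, rfl⟩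
  have bs := Module.finBasisOfFinrankEq ℚ W hd.symm
  obtain ⟨c, hc⟩ : ∃ c, c = bs.repr ⟨1, h1⟩ := ⟨_, rfl⟩
  have hne : ∃ i, c i ≠ 0 := by
    by_contra hcon
    push Not at hcon
    have h0 : (⟨1, h1⟩ : W) = 0 := by
      rw [← bs.repr.map_eq_zero_iff, ← hc]
      ext i
      exact hcon i
    have : (1 : ℝ) = 0 := congrArg Subtype.val h0
    exact one_ne_zero this
  obtain ⟨i0, hi0⟩ := hne
  obtain ⟨d', rfl⟩ : ∃ d', d = d' + 1 := ⟨d - 1, by have := i0.2; omega⟩
  refine ⟨d', fun a => (bs (i0.succAbove a) : ℝ), hd, ?_⟩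
  have key : ∀ (x : ℝ) (hx : x ∈ W), x = (bs.repr ⟨x, hx⟩ i0 : ℝ) * (bs i0 : ℝ) +
      ∑ a : Fin d', (bs.repr ⟨x, hx⟩ (i0.succAbove a) : ℝ) * (bs (i0.succAbove a) : ℝ) := by
    intro x hx
    have h2 := bs.sum_repr ⟨x, hx⟩
    have h3 := congrArg Subtype.val h2
    rw [Fin.sum_univ_succAbove _ i0] at h3
    simp only [Submodule.coe_add, Submodule.coe_sum, Submodule.coe_smul, Rat.smul_def] at h3
    exact h3.symm
  have k1 := key 1 h1
  rw [← hc] at k1
  have hci : (c i0 : ℝ) ≠ 0 := by exact_mod_cast hi0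
  intro x hx
  obtain ⟨y, hy⟩ : ∃ y, y = bs.repr ⟨x, hx⟩ := ⟨_, rfl⟩
  have k2 := key x hx
  rw [← hy] at k2
  refine ⟨y i0 / c i0, fun a => y (i0.succAbove a) - y i0 / c i0 * c (i0.succAbove a), ?_⟩
  have k3 : (bs i0 : ℝ) = (1 - ∑ a : Fin d', (c (i0.succAbove a) : ℝ) *
      (bs (i0.succAbove a) : ℝ)) / (c i0 : ℝ) := by
    rw [eq_div_iff hci]
    linarith
  rw [k2, k3]
  push_cast
  simp only [mul_sub, Finset.sum_sub_distrib]
  have e1 : ∑ a : Fin d', (bs (i0.succAbove a) : ℝ) *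
      ((y i0 : ℝ) / (c i0 : ℝ) * (c (i0.succAbove a) : ℝ)) =
      (y i0 : ℝ) / (c i0 : ℝ) * ∑ a : Fin d', (c (i0.succAbove a) : ℝ) * (bs (i0.succAbove a) : ℝ) := by
    rw [Finset.mul_sum]
    exact Finset.sum_congr rfl fun a _ => by ring
  have e2 : ∑ a : Fin d', (y (i0.succAbove a) : ℝ) * (bs (i0.succAbove a) : ℝ) =
      ∑ a : Fin d', (bs (i0.succAbove a) : ℝ) * (y (i0.succAbove a) : ℝ) :=
    Finset.sum_congr rfl fun a _ => mul_comm _ _
  rw [e1, e2]
  field_simp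
  ring

/-- some odd zeta value of the window is outside a given space of small dimension -/
theorem outside_even {b S : ℕ} (hb : Even b) (hb2 : 2 ≤ b) (hS : 1 ≤ S) (W : Submodule ℚ ℝ)
    [FiniteDimensional ℚ W] (h1 : (1 : ℝ) ∈ W) (hW : finrank ℚ W ≤ S) :
    ∃ j, b < j ∧ j ≤ 2 * dh b S + dB b S ∧ Odd j ∧ zr j ∉ W := by
  by_contra hcon
  push Not at hcon
  obtain ⟨A, θ, hA, hθ⟩ := exists_coord W h1
  have hz : ∀ j, ∃ (z0 : ℚ) (z : Fin A → ℚ), Odd j → b < j → j ≤ 2 * dh b S + dB b S →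
      zr j = z0 + ∑ a, θ a * z a := by
    intro j
    by_cases hj : Odd j ∧ b < j ∧ j ≤ 2 * dh b S + dB b S
    · obtain ⟨z0, z, h2⟩ := hθ (zr j) (hcon j hj.2.1 hj.2.2 hj.1)
      exact ⟨z0, z, fun _ _ _ => h2⟩
    · exact ⟨0, 0, fun h2 h3 h4 => absurd ⟨h2, h3, h4⟩ hj⟩
  choose z0 z hz using hz
  have hP := dP_pos b S
  have hAS : A + 1 ≤ S := by omega
  have hK := parK (b := b) hS
  refine dcore (A := A) (M := dM S) (b := b) (γ := dP b S) (w := dw b S) (h := dh b S) (R := dR S)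
    (x := dx b S) (W := dx b S) (J1 := dL S + 11) (J2 := 2 * dL S + 21) hb hb2 ?_ ?_ ?_ ?_
    (parJ1 b S) (parJ2 hS) ?_ ?_ (parW hS) ?_ θ z0 (fun a j => z j a)
    (fun j h2 h3 h4 => hz j h2 h3 h4)
  · unfold dh
    exact Nat.mul_pos (by omega) (Nat.mul_pos (by positivity) (by omega))
  · unfold dM
    omega
  · have := dR_ge S
    omega
  · unfold dw
    have : dP b S ≤ S * dP b S := Nat.le_mul_of_pos_left _ hS
    omega
  · refine le_trans ?_ hK
    gcongr
    omega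
  · have := parS (b := b) hS
    omega
  · refine lt_of_le_of_lt ?_ (parZ (b := b) hS)
    gcongr

/-- the condition on the window -/
def Win (b S s : ℕ) : Prop := 2 ^ 40 * (S ^ 2 * (b + S)) ≤ s * (Nat.log 2 S + 1)

theorem outside {b S s : ℕ} (hS : 1 ≤ S) (hs : Win b S s) (W : Submodule ℚ ℝ)
    [FiniteDimensional ℚ W] (h1 : (1 : ℝ) ∈ W) (hW : finrank ℚ W ≤ S) :
    ∃ j, b < j ∧ j ≤ s ∧ Odd j ∧ zr j ∉ W := by
  obtain ⟨b', hb'⟩ : ∃ b', b' = 2 * (b / 2) + 2 := ⟨_, rfl⟩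
  have hbe : Even b' := by
    rw [hb']
    exact (even_two_mul _).add even_two
  obtain ⟨j, h2, h3, h4, h5⟩ := outside_even hbe (by omega) hS W h1 hW
  refine ⟨j, by omega, h3.trans ?_, h4, h5⟩
  have h6 := win (b := b') hS
  have hB : dB b' S ≤ (2 ^ 18 + 2) * (b + S) := by
    unfold dB dM
    omega
  have hL : 0 < dL S := by
    unfold dL
    omega
  refine Nat.le_of_mul_le_mul_left (h6.trans ?_) hL
  calc (2 ^ 21 + 5) * (S ^ 2 * dB b' S) ≤ (2 ^ 21 + 5) * (S ^ 2 * ((2 ^ 18 + 2) * (b + S))) := by gcongr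
    _ = ((2 ^ 21 + 5) * (2 ^ 18 + 2)) * (S ^ 2 * (b + S)) := by ring
    _ ≤ 2 ^ 40 * (S ^ 2 * (b + S)) := by gcongr; norm_num
    _ ≤ s * (Nat.log 2 S + 1) := hs
    _ = dL S * s := by rw [mul_comm]; rfl

/-- the dimension, from the property of subspaces -/
theorem dim_of_outside {b S s : ℕ}
    (hO : ∀ (W : Submodule ℚ ℝ) [FiniteDimensional ℚ W], (1 : ℝ) ∈ W → finrank ℚ W ≤ S →
      ∃ j, b < j ∧ j ≤ s ∧ Odd j ∧ zr j ∉ W) :
    S + 1 ≤ finrank ℚ (Submodule.span ℚ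
      ({x : ℝ | x = 1 ∨ ∃ j, b < j ∧ j ≤ s ∧ Odd j ∧ x = zr j} : Set ℝ)) := by
  have hfin : ({x : ℝ | x = 1 ∨ ∃ j, b < j ∧ j ≤ s ∧ Odd j ∧ x = zr j} : Set ℝ).Finite := by
    have h1 : ({x : ℝ | x = 1 ∨ ∃ j, b < j ∧ j ≤ s ∧ Odd j ∧ x = zr j} : Set ℝ) ⊆
        {1} ∪ zr '' (Set.Iic s) := by
      rintro x (rfl | ⟨j, _, h2, _, rfl⟩)
      · exact Or.inl rfl
      · exact Or.inr ⟨j, h2, rfl⟩
    exact ((Set.finite_singleton _).union ((Set.finite_Iic s).image _)).subset h1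
  have : FiniteDimensional ℚ (Submodule.span ℚ
      ({x : ℝ | x = 1 ∨ ∃ j, b < j ∧ j ≤ s ∧ Odd j ∧ x = zr j} : Set ℝ)) :=
    FiniteDimensional.span_of_finite ℚ hfin
  by_contra hc
  obtain ⟨j, g1, g2, g3, g4⟩ := hO (Submodule.span ℚ
      ({x : ℝ | x = 1 ∨ ∃ j, b < j ∧ j ≤ s ∧ Odd j ∧ x = zr j} : Set ℝ))
    (Submodule.subset_span (Or.inl rfl)) (by omega)
  exact g4 (Submodule.subset_span (Or.inr ⟨j, g1, g2, g3, rfl⟩))

/-- linear independence over number fields, modulo vector spaces -/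
theorem indep_of_outside {b s d v m : ℕ}
    (hO : ∀ (W : Submodule ℚ ℝ) [FiniteDimensional ℚ W], (1 : ℝ) ∈ W → finrank ℚ W ≤ d * (v + m) →
      ∃ j, b < j ∧ j ≤ s ∧ Odd j ∧ zr j ∉ W)
    (F : IntermediateField ℚ ℝ) [FiniteDimensional ℚ F] (hF : finrank ℚ F ≤ d)
    (V : Submodule F ℝ) [Module.Finite F V] (hV : finrank F V ≤ v) (hd : 1 ≤ d) :
    ∃ J : Finset ℕ, J.card = m ∧ (∀ j ∈ J, b < j ∧ j ≤ s ∧ Odd j) ∧
      LinearIndependent F (fun j : J => V.mkQ (zr (j : ℕ))) := by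
  classical
  have key : ∀ a : ℕ, a ≤ m → ∃ J : Finset ℕ, J.card = a ∧ (∀ j ∈ J, b < j ∧ j ≤ s ∧ Odd j) ∧
      LinearIndepOn F (fun j => V.mkQ (zr j)) (J : Set ℕ) := by
    intro a
    induction a with
    | zero => intro _; exact ⟨∅, by simp, by simp, by simp⟩
    | succ a ih =>
      intro ha
      obtain ⟨J, hJc, hJE, hJi⟩ := ih (by omega)
      have hfin : Module.Finite F (Submodule.span F (zr '' (J : Set ℕ))) :=
        FiniteDimensional.span_of_finite F (J.finite_toSet.image zr)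
      have h1 : finrank F (Submodule.span F (zr '' (J : Set ℕ))) ≤ a := by
        have := finrank_span_finset_le_card (R := F) (J.image zr)
        rw [Finset.coe_image] at this
        exact this.trans (Finset.card_image_le.trans hJc.le)
      obtain ⟨U, hU⟩ : ∃ U : Submodule F ℝ, U = V ⊔ Submodule.span F (zr '' (J : Set ℕ)) := ⟨_, rfl⟩
      have hUfin : Module.Finite F U := by rw [hU]; infer_instance
      have h2 : finrank F U ≤ v + a := by
        have := Submodule.finrank_add_le_finrank_add_finrank V (Submodule.span F (zr '' (J : Set ℕ)))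
        rw [hU]
        omega
      have hST : IsScalarTower ℚ F (U.restrictScalars ℚ) :=
        ⟨fun a c x => Subtype.ext (smul_assoc a c (x : ℝ))⟩
      have hUF : Module.Finite F (U.restrictScalars ℚ) := hUfin
      have hUQ : FiniteDimensional ℚ (U.restrictScalars ℚ) := Module.Finite.trans F (U.restrictScalars ℚ)
      have h3 : finrank ℚ (U.restrictScalars ℚ) ≤ d * (v + a) := by
        have e : finrank ℚ (U.restrictScalars ℚ) = finrank ℚ F * finrank F U :=
          (Module.finrank_mul_finrank ℚ F (U.restrictScalars ℚ)).symm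
        rw [e]
        exact Nat.mul_le_mul hF h2
      have h4 : finrank ℚ (U.restrictScalars ℚ ⊔ Submodule.span ℚ {(1 : ℝ)} : Submodule ℚ ℝ) ≤
          d * (v + m) := by
        have h5 := Submodule.finrank_add_le_finrank_add_finrank (U.restrictScalars ℚ)
          (Submodule.span ℚ {(1 : ℝ)})
        have h6 : finrank ℚ (Submodule.span ℚ {(1 : ℝ)}) ≤ 1 :=
          finrank_span_le_card {(1 : ℝ)} |>.trans (by simp)
        have h7 : d * (v + a) + d ≤ d * (v + m) := by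
          calc d * (v + a) + d = d * (v + a + 1) := by ring
            _ ≤ d * (v + m) := Nat.mul_le_mul_left _ (by omega)
        omega
      obtain ⟨j, g1, g2, g3, g4⟩ := hO
        (U.restrictScalars ℚ ⊔ Submodule.span ℚ {(1 : ℝ)})
        (Submodule.mem_sup_right (Submodule.mem_span_singleton_self _)) h4
      have hjU : zr j ∉ U := fun hmem => g4 (Submodule.mem_sup_left hmem)
      have hjJ : j ∉ J := by
        intro hj
        apply hjU
        rw [hU]
        exact Submodule.mem_sup_right (Submodule.subset_span ⟨j, hj, rfl⟩)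
      refine ⟨insert j J, ?_, ?_, ?_⟩
      · rw [Finset.card_insert_of_notMem hjJ, hJc]
      · intro i hi
        rcases Finset.mem_insert.1 hi with rfl | hi
        · exact ⟨g1, g2, g3⟩
        · exact hJE i hi
      · rw [Finset.coe_insert]
        refine hJi.insert ?_
        intro hmem
        apply hjU
        have e1 : (fun j => V.mkQ (zr j)) '' (J : Set ℕ) = V.mkQ '' (zr '' (J : Set ℕ)) := by
          rw [Set.image_image]
        rw [e1, ← Submodule.map_span] at hmem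
        have h3 : zr j ∈ Submodule.comap V.mkQ
          (Submodule.map V.mkQ (Submodule.span F (zr '' (J : Set ℕ)))) := hmem
        rw [Submodule.comap_map_mkQ] at h3
        rwa [hU]
  obtain ⟨J, h1, h2, h3⟩ := key m le_rfl
  exact ⟨J, h1, h2, h3⟩

end Pool.Agent.H494.DZ
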