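import Pool.Agent.H494.DZ.Core

/-!
# The parameters
-/

set_option autoImplicit false

namespace Pool.Agent.H494.DZ

/-- `⌊log₂ S⌋ + 1` -/
def dL (S : ℕ) : ℕ := Nat.log 2 S + 1

/-- the logarithm of the length of the near zone -/
def dR (S : ℕ) : ℕ := dL S / 2 + 8

/-- the number of orders -/
def dM (S : ℕ) : ℕ := 2 ^ 17 * S

/-- the upper bound of the orders -/
def dB (b S : ℕ) : ℕ := b + 2 * dM S

/-- the degree of the multipliers -/
def dP (b S : ℕ) : ℕ := dB b S / dR S + 1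

/-- the order at infinity -/
def dw (b S : ℕ) : ℕ := 2 ^ 9 * (S * dP b S)

/-- the order of the poles -/
def dh (b S : ℕ) : ℕ := 2 ^ 19 * (S ^ 2 * dP b S)

/-- the size of the coefficients -/
def dx (b S : ℕ) : ℕ := dw b S * dR S

theorem dL_le {S : ℕ} (hS : 1 ≤ S) : dL S ≤ S := by
  unfold dL
  have := Nat.log_lt_self 2 (show S ≠ 0 by omega)
  omega

theorem lt_dL (S : ℕ) : S < 2 ^ dL S := Nat.lt_pow_succ_log_self (by norm_num) S

theorem pow_dL_le {S : ℕ} (hS : 1 ≤ S) : 2 ^ dL S ≤ 2 * S := by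
  unfold dL
  rw [pow_succ, mul_comm]
  exact Nat.mul_le_mul_left _ (Nat.pow_log_le_self 2 (by omega))

theorem dL_le_dR (S : ℕ) : dL S + 15 ≤ 2 * dR S := by
  unfold dR
  omega

theorem dR_ge (S : ℕ) : 8 ≤ dR S := by
  unfold dR
  omega

theorem dR_le {S : ℕ} (hS : 1 ≤ S) : dR S ≤ 9 * S := by
  have := dL_le hS
  unfold dR
  omega

/-- the length of the near zone -/
theorem pow_dR_le {S : ℕ} (hS : 1 ≤ S) : 2 ^ dR S * dR S ≤ 2 ^ 12 * S := by
  obtain ⟨k, hk⟩ : ∃ k, k = dL S / 2 := ⟨_, rfl⟩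
  have h1 : dR S = k + 8 := by rw [hk]; rfl
  have h2 : k + 8 ≤ 8 * 2 ^ k := by
    have h3 : k + 1 ≤ 2 ^ k := Nat.lt_two_pow_self
    omega
  rw [h1]
  calc 2 ^ (k + 8) * (k + 8) ≤ 2 ^ (k + 8) * (8 * 2 ^ k) := Nat.mul_le_mul_left _ h2
    _ = 2 ^ 11 * 2 ^ (2 * k) := by
        rw [pow_add, two_mul, pow_add]
        ring
    _ ≤ 2 ^ 11 * 2 ^ dL S := Nat.mul_le_mul_left _ (Nat.pow_le_pow_right (by norm_num) (by omega))
    _ ≤ 2 ^ 11 * (2 * S) := Nat.mul_le_mul_left _ (pow_dL_le hS)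
    _ = _ := by ring

theorem dP_pos (b S : ℕ) : 1 ≤ dP b S := Nat.le_add_left 1 _

theorem dB_le (b S : ℕ) : dB b S ≤ dP b S * dR S := by
  unfold dP
  have h1 := Nat.div_add_mod (dB b S) (dR S)
  have h2 := Nat.mod_lt (dB b S) (show 0 < dR S by have := dR_ge S; omega)
  have h3 : (dB b S / dR S + 1) * dR S = dR S * (dB b S / dR S) + dR S := by ring
  omega

/-- the window -/
theorem win {b S : ℕ} (hS : 1 ≤ S) :
    dL S * (2 * dh b S + dB b S) ≤ (2 ^ 21 + 5) * (S ^ 2 * dB b S) := by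
  have h1 := dL_le hS
  have h2 := dL_le_dR S
  have hB : 2 ^ 18 * S ≤ dB b S := by
    unfold dB dM
    omega
  have h3 : dL S * dP b S ≤ 2 * dB b S + S := by
    unfold dP
    have h4 := Nat.div_mul_le_self (dB b S) (dR S)
    calc dL S * (dB b S / dR S + 1) = dL S * (dB b S / dR S) + dL S := by ring
      _ ≤ (2 * dR S) * (dB b S / dR S) + S := by gcongr; omega
      _ = 2 * (dB b S / dR S * dR S) + S := by ring
      _ ≤ _ := by omega
  have hS2 : S ≤ S ^ 2 := by nlinarith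
  calc dL S * (2 * dh b S + dB b S) = 2 ^ 20 * S ^ 2 * (dL S * dP b S) + dL S * dB b S := by
        unfold dh
        ring
    _ ≤ 2 ^ 20 * S ^ 2 * (2 * dB b S + S) + S ^ 2 * dB b S := by
        gcongr
        exact h1.trans hS2
    _ = (2 ^ 21 + 1) * (S ^ 2 * dB b S) + 4 * S ^ 2 * (2 ^ 18 * S) := by ring
    _ ≤ (2 ^ 21 + 1) * (S ^ 2 * dB b S) + 4 * S ^ 2 * dB b S := by gcongr
    _ = _ := by ring

theorem parJ1 (b S : ℕ) : 2 * dh b S ≤ 2 ^ (dL S + 11) * dw b S := by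
  have h1 := (lt_dL S).le
  unfold dh dw
  rw [pow_add]
  calc 2 * (2 ^ 19 * (S ^ 2 * dP b S)) = 2 ^ 20 * (S * (S * dP b S)) := by ring
    _ ≤ 2 ^ 20 * (2 ^ dL S * (S * dP b S)) := by gcongr
    _ = _ := by ring

theorem parJ2 {b S : ℕ} (hS : 1 ≤ S) : 2 * dh b S + 2 * dB b S ≤ 2 ^ (2 * dL S + 21) * dP b S := by
  have h1 := (lt_dL S).le
  have h2 := dB_le b S
  have h3 := dR_le hS
  have h4 : S ≤ S ^ 2 := by nlinarith
  unfold dh
  calc 2 * (2 ^ 19 * (S ^ 2 * dP b S)) + 2 * dB b S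
      ≤ 2 * (2 ^ 19 * (S ^ 2 * dP b S)) + 2 * (dP b S * (9 * S ^ 2)) := by
        gcongr
        refine h2.trans ?_
        gcongr
        exact h3.trans (Nat.mul_le_mul_left _ h4)
    _ = (2 ^ 20 + 18) * (S ^ 2 * dP b S) := by ring
    _ ≤ 2 ^ 21 * ((2 ^ dL S) ^ 2 * dP b S) := by gcongr; norm_num
    _ = _ := by
        rw [pow_add, mul_comm 2 (dL S), pow_mul]
        ring

theorem parZ {b S : ℕ} (hS : 1 ≤ S) :
    2 * (dP b S * (S * dM S)) + 2 * dw b S < dh b S := by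
  have h1 := dP_pos b S
  unfold dM dw dh
  have h2 : 1 ≤ S * (S * dP b S) := Nat.mul_pos hS (Nat.mul_pos hS h1)
  have h3 : S * dP b S ≤ S * (S * dP b S) := Nat.le_mul_of_pos_left _ hS
  have e1 : 2 * (dP b S * (S * (2 ^ 17 * S))) = 2 ^ 18 * (S * (S * dP b S)) := by ring
  have e2 : 2 ^ 19 * (S ^ 2 * dP b S) = 2 ^ 19 * (S * (S * dP b S)) := by ring
  rw [e1, e2]
  omega

theorem parW {b S : ℕ} (hS : 1 ≤ S) :
    (2 * dP b S + 4 * (2 * dL S + 21) * (2 * dP b S + 2) + 1) + (dP b S + 1) * (2 * dR S + 6) + 1 ≤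
      dx b S := by
  have h1 := dP_pos b S
  have h2 := dL_le_dR S
  have h3 := dR_ge S
  obtain ⟨Q, hQ⟩ : ∃ Q, Q = dP b S * dR S := ⟨_, rfl⟩
  have hx : dx b S = 2 ^ 9 * (S * Q) := by
    rw [hQ]
    unfold dx dw
    ring
  have h4 : Q ≤ S * Q := Nat.le_mul_of_pos_left _ hS
  have h5 : 8 * dP b S ≤ Q := by
    rw [hQ, mul_comm]
    exact Nat.mul_le_mul_left _ h3
  have h6 : 4 * (2 * dL S + 21) * (2 * dP b S + 2) ≤ 64 * Q := by
    calc 4 * (2 * dL S + 21) * (2 * dP b S + 2) ≤ 4 * (4 * dR S) * (4 * dP b S) := by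
          gcongr
          · omega
          · omega
      _ = 64 * Q := by rw [hQ]; ring
  have h7 : (dP b S + 1) * (2 * dR S + 6) ≤ 6 * Q := by
    calc (dP b S + 1) * (2 * dR S + 6) ≤ (2 * dP b S) * (3 * dR S) := by
          gcongr
          · omega
          · omega
      _ = 6 * Q := by rw [hQ]; ring
  rw [hx]
  omega

theorem parS {b S : ℕ} (hS : 1 ≤ S) :
    dx b S + (2 * dP b S + 4 * (2 * dL S + 21) * (2 * dP b S + 2) + 1) + 3 * (dP b S + 1) + 1 ≤
      2 * (dw b S - dP b S) * (dR S - 1) := by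
  have h1 := dP_pos b S
  have h2 := dL_le_dR S
  have h3 := dR_ge S
  obtain ⟨Q, hQ⟩ : ∃ Q, Q = dP b S * dR S := ⟨_, rfl⟩
  have hx : dx b S = 2 ^ 9 * (S * Q) := by
    rw [hQ]
    unfold dx dw
    ring
  have h4 : Q ≤ S * Q := Nat.le_mul_of_pos_left _ hS
  have h5 : 8 * dP b S ≤ Q := by
    rw [hQ, mul_comm]
    exact Nat.mul_le_mul_left _ h3
  have h6 : 4 * (2 * dL S + 21) * (2 * dP b S + 2) ≤ 64 * Q := by
    calc 4 * (2 * dL S + 21) * (2 * dP b S + 2) ≤ 4 * (4 * dR S) * (4 * dP b S) := by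
          gcongr
          · omega
          · omega
      _ = 64 * Q := by rw [hQ]; ring
  -- the right-hand side
  have h7 : 511 * (S * dP b S) ≤ dw b S - dP b S := by
    have : dP b S ≤ S * dP b S := Nat.le_mul_of_pos_left _ hS
    unfold dw
    omega
  have h8 : 7 * dR S ≤ 8 * (dR S - 1) := by omega
  have h9 : 7 * (2 * 511 * (S * Q)) ≤ 8 * (2 * (dw b S - dP b S) * (dR S - 1)) := by
    calc 7 * (2 * 511 * (S * Q)) = 2 * (511 * (S * dP b S)) * (7 * dR S) := by rw [hQ]; ring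
      _ ≤ 2 * (dw b S - dP b S) * (8 * (dR S - 1)) := by gcongr
      _ = _ := by ring
  rw [hx]
  omega

theorem parK {b S : ℕ} (hS : 1 ≤ S) :
    (dw b S + 1) * (5 * dw b S + 8 * (dL S + 11) * (dw b S + 1) + 5) +
      (S - 1) * dM S * ((dP b S + 1) * (5 * dP b S + 8 * (2 * dL S + 21) * (dP b S + 1) + 5)) +
      2 ^ dR S * (b + 2 * dM S) * (dx b S + dx b S + 1) +
      4 * (b + 2 * dM S) * (2 * dh b S + (b + 2 * dM S)) ≤ dx b S * (dM S * dP b S) := by
  have h1 := dP_pos b S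
  have h2 := dL_le_dR S
  have h3 := dR_ge S
  have hB : b + 2 * dM S = dB b S := rfl
  rw [hB]
  have hBQ := dB_le b S
  have hR9 := dR_le hS
  have hSS : S ≤ S ^ 2 := by nlinarith
  obtain ⟨U, hU⟩ : ∃ U, U = S ^ 2 * dP b S ^ 2 * dR S := ⟨_, rfl⟩
  have hSP : 1 ≤ S * dP b S := Nat.mul_pos hS h1
  have hRHS : dx b S * (dM S * dP b S) = 2 ^ 26 * U := by
    rw [hU]
    unfold dx dM dw
    ring
  have hx1 : 1 ≤ dx b S := by
    unfold dx dw
    exact Nat.mul_pos (by omega) (by omega)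
  have t1 : (dw b S + 1) * (5 * dw b S + 8 * (dL S + 11) * (dw b S + 1) + 5) ≤ 2 ^ 23 * U := by
    have e1 : (dw b S + 1) * (5 * dw b S + 8 * (dL S + 11) * (dw b S + 1) + 5) =
        (dw b S + 1) ^ 2 * (5 + 8 * (dL S + 11)) := by ring
    have e2 : (dw b S + 1) ^ 2 ≤ 2 * dw b S ^ 2 := by
      have : 3 ≤ dw b S := by
        unfold dw
        omega
      nlinarith
    rw [e1]
    calc (dw b S + 1) ^ 2 * (5 + 8 * (dL S + 11)) ≤ (2 * dw b S ^ 2) * (16 * dR S) := by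
          gcongr
          omega
      _ = 2 ^ 23 * U := by
          rw [hU]
          unfold dw
          ring
  have t2 : (S - 1) * dM S * ((dP b S + 1) * (5 * dP b S + 8 * (2 * dL S + 21) * (dP b S + 1) + 5)) ≤
      2 ^ 24 * U := by
    have e1 : (dP b S + 1) * (5 * dP b S + 8 * (2 * dL S + 21) * (dP b S + 1) + 5) =
        (dP b S + 1) ^ 2 * (5 + 8 * (2 * dL S + 21)) := by ring
    rw [e1]
    calc (S - 1) * dM S * ((dP b S + 1) ^ 2 * (5 + 8 * (2 * dL S + 21)))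
        ≤ S * dM S * ((2 * dP b S) ^ 2 * (32 * dR S)) := by
          gcongr
          · omega
          · omega
          · omega
      _ = 2 ^ 24 * U := by
          rw [hU]
          unfold dM
          ring
  have t3 : 2 ^ dR S * dB b S * (dx b S + dx b S + 1) ≤ 3 * 2 ^ 21 * U := by
    calc 2 ^ dR S * dB b S * (dx b S + dx b S + 1)
        ≤ 2 ^ dR S * (dP b S * dR S) * (3 * dx b S) := by
          gcongr
          omega
      _ = (2 ^ dR S * dR S) * (3 * (dP b S * dx b S)) := by ring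
      _ ≤ (2 ^ 12 * S) * (3 * (dP b S * dx b S)) := Nat.mul_le_mul_right _ (pow_dR_le hS)
      _ = 3 * 2 ^ 21 * U := by
          rw [hU]
          unfold dx dw
          ring
  have t4 : 4 * dB b S * (2 * dh b S + dB b S) ≤ 2 ^ 23 * U := by
    calc 4 * dB b S * (2 * dh b S + dB b S)
        ≤ 4 * (dP b S * dR S) * (2 * dh b S + dP b S * (9 * S ^ 2)) := by
          gcongr
          refine hBQ.trans ?_
          gcongr
          exact hR9.trans (Nat.mul_le_mul_left _ hSS)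
      _ = 4 * (2 ^ 20 + 9) * U := by
          rw [hU]
          unfold dh
          ring
      _ ≤ 2 ^ 23 * U := by gcongr; norm_num
  rw [hRHS]
  omega

end Pool.Agent.H494.DZ
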