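import Mathlib

/-!
# The pigeonhole principle with equations, inequalities, congruences and a non-vanishing condition

Equations `u j · x = 0`, inequalities `|f j · x| < E j`, congruences `g j · x ≡ 0 mod m j`, and rational vectors `m0 j`
which are linearly independent modulo the span of the `u j`: there is a small integral solution `x` for which not all
`m0 j · x` vanish, as soon as `∏ V · ∏ (H Vf + 1) · ∏ m < (H + 1) ^ |κ0|`.
-/

set_option autoImplicit false

open Finset

namespace Pool.Agent.H494.DZ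

private lemma pig_term (a y : ℤ) (H : ℕ) (h0 : 0 ≤ y) (h1 : y ≤ H) :
    0 ≤ a * y + H * max (-a) 0 ∧ a * y + H * max (-a) 0 ≤ H * |a| := by
  rcases le_total 0 a with h | h
  · rw [max_eq_right (by linarith), abs_of_nonneg h]
    constructor
    · positivity
    · nlinarith
  · rw [max_eq_left (by linarith), abs_of_nonpos h]
    constructor
    · nlinarith
    · nlinarith

/-- the pigeonhole principle with inequalities and congruences -/
theorem pigE {ι κ μ : Type} [Fintype ι] [Fintype κ] [Fintype μ] (f : κ → ι → ℤ)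
    (g : μ → ι → ℤ) (V E : κ → ℕ) (m : μ → ℕ) (H : ℕ)
    (hV : ∀ j, ∑ i, |f j i| ≤ ((V j * E j : ℕ) : ℤ)) (hE : ∀ j, 1 ≤ E j) (hm : ∀ j, 1 ≤ m j)
    (hcard : (∏ j, (H * V j + 1)) * ∏ j, m j < (H + 1) ^ Fintype.card ι) :
    ∃ x : ι → ℤ, x ≠ 0 ∧ (∀ i, |x i| ≤ (H : ℤ)) ∧ (∀ j, |∑ i, f j i * x i| < (E j : ℤ)) ∧
      ∀ j, (m j : ℤ) ∣ ∑ i, g j i * x i := by
  classical
  have hb : ∀ (x : ι → Fin (H + 1)) (j : κ),
      0 ≤ ∑ i, (f j i * ((x i : ℕ) : ℤ) + H * max (-f j i) 0) ∧
      ∑ i, (f j i * ((x i : ℕ) : ℤ) + H * max (-f j i) 0) ≤ H * (V j * E j : ℕ) := by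
    intro x j
    have hx : ∀ i, 0 ≤ (((x i : ℕ) : ℤ)) ∧ (((x i : ℕ) : ℤ)) ≤ H := fun i =>
      ⟨Int.natCast_nonneg _, by exact_mod_cast Nat.lt_succ_iff.1 (x i).2⟩
    constructor
    · exact Finset.sum_nonneg fun i _ => (pig_term _ _ H (hx i).1 (hx i).2).1
    · calc ∑ i, (f j i * ((x i : ℕ) : ℤ) + H * max (-f j i) 0) ≤ ∑ i, (H : ℤ) * |f j i| :=
            Finset.sum_le_sum fun i _ => (pig_term _ _ H (hx i).1 (hx i).2).2
        _ = H * ∑ i, |f j i| := by rw [Finset.mul_sum]
        _ ≤ H * (V j * E j : ℕ) := mul_le_mul_of_nonneg_left (hV j) (Int.natCast_nonneg _)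
  have hmod : ∀ (x : ι → Fin (H + 1)) (j : μ),
      0 ≤ (∑ i, g j i * ((x i : ℕ) : ℤ)) % (m j : ℤ) ∧
      (∑ i, g j i * ((x i : ℕ) : ℤ)) % (m j : ℤ) < m j := by
    intro x j
    have h1 : (0 : ℤ) < m j := by exact_mod_cast hm j
    exact ⟨Int.emod_nonneg _ h1.ne', Int.emod_lt_of_pos _ h1⟩
  let Φ : (ι → Fin (H + 1)) → ((j : κ) → Fin (H * V j + 1)) × ((j : μ) → Fin (m j)) := fun x =>
    (fun j => ⟨(∑ i, (f j i * ((x i : ℕ) : ℤ) + H * max (-f j i) 0)).toNat / E j, by
      have h1 := hb x j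
      have h2 : (∑ i, (f j i * ((x i : ℕ) : ℤ) + H * max (-f j i) 0)).toNat ≤ H * (V j * E j) := by
        rw [Int.toNat_le]
        push_cast at h1 ⊢
        exact h1.2
      have h3 : (∑ i, (f j i * ((x i : ℕ) : ℤ) + H * max (-f j i) 0)).toNat / E j ≤ H * V j := by
        rw [Nat.div_le_iff_le_mul_add_pred (hE j)]
        have : E j * (H * V j) = H * (V j * E j) := by ring
        omega
      omega⟩,
     fun j => ⟨((∑ i, g j i * ((x i : ℕ) : ℤ)) % (m j : ℤ)).toNat, by
      have := hmod x j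
      rw [Int.toNat_lt this.1]
      exact this.2⟩)
  have hlt : Fintype.card (((j : κ) → Fin (H * V j + 1)) × ((j : μ) → Fin (m j))) <
      Fintype.card (ι → Fin (H + 1)) := by
    rw [Fintype.card_prod, Fintype.card_pi, Fintype.card_pi, Fintype.card_fun]
    simp only [Fintype.card_fin]
    exact hcard
  obtain ⟨x₁, x₂, hne, hΦ⟩ := Fintype.exists_ne_map_eq_of_card_lt Φ hlt
  have hΦ1 : ∀ j, |∑ i, f j i * ((x₁ i : ℕ) : ℤ) - ∑ i, f j i * ((x₂ i : ℕ) : ℤ)| < (E j : ℤ) := by
    intro j
    have h1 := congrArg (fun p => (p.1 j : ℕ)) hΦ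
    simp only [Φ] at h1
    have hEj := hE j
    have e1 := (hb x₁ j).1
    have e2 := (hb x₂ j).1
    obtain ⟨s1, hs1⟩ : ∃ s1, s1 = ∑ i, (f j i * ((x₁ i : ℕ) : ℤ) + H * max (-f j i) 0) := ⟨_, rfl⟩
    obtain ⟨s2, hs2⟩ : ∃ s2, s2 = ∑ i, (f j i * ((x₂ i : ℕ) : ℤ) + H * max (-f j i) 0) := ⟨_, rfl⟩
    rw [← hs1] at h1 e1
    rw [← hs2] at h1 e2
    obtain ⟨a1, ha1⟩ := Int.eq_ofNat_of_zero_le e1
    obtain ⟨a2, ha2⟩ := Int.eq_ofNat_of_zero_le e2
    rw [ha1, ha2, Int.toNat_natCast, Int.toNat_natCast] at h1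
    have h3 := Nat.div_add_mod a1 (E j)
    have h4 := Nat.div_add_mod a2 (E j)
    have h5 := Nat.mod_lt a1 hEj
    have h6 := Nat.mod_lt a2 hEj
    have h7 : ∑ i, f j i * ((x₁ i : ℕ) : ℤ) - ∑ i, f j i * ((x₂ i : ℕ) : ℤ) = (a1 : ℤ) - a2 := by
      rw [← ha1, ← ha2, hs1, hs2, Finset.sum_add_distrib, Finset.sum_add_distrib]
      ring
    rw [h7, abs_lt]
    rw [h1] at h3
    constructor <;> omega
  have hΦ2 : ∀ j, (∑ i, g j i * ((x₁ i : ℕ) : ℤ)) % (m j : ℤ) =
      (∑ i, g j i * ((x₂ i : ℕ) : ℤ)) % (m j : ℤ) := by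
    intro j
    have h1 := congrArg (fun p => ((p.2 j : ℕ) : ℤ)) hΦ
    simp only [Φ] at h1
    rw [Int.toNat_of_nonneg (hmod x₁ j).1, Int.toNat_of_nonneg (hmod x₂ j).1] at h1
    exact h1
  refine ⟨fun i => ((x₁ i : ℕ) : ℤ) - ((x₂ i : ℕ) : ℤ), ?_, ?_, ?_, ?_⟩
  · intro h
    apply hne
    funext i
    have h1 := congrFun h i
    simp only [Pi.zero_apply] at h1
    have h2 : (x₁ i : ℕ) = (x₂ i : ℕ) := by omega
    exact Fin.ext h2
  · intro i
    have h1 := (x₁ i).2
    have h2 := (x₂ i).2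
    show |((x₁ i : ℕ) : ℤ) - ((x₂ i : ℕ) : ℤ)| ≤ (H : ℤ)
    rw [abs_le]
    constructor <;> omega
  · intro j
    simp only [mul_sub, Finset.sum_sub_distrib]
    exact hΦ1 j
  · intro j
    simp only [mul_sub, Finset.sum_sub_distrib]
    exact Int.ModEq.dvd (hΦ2 j).symm

/-- a linearly independent family extends to a spanning family by unit vectors; a vector orthogonal to all of them
vanishes -/
theorem exists_units {ι κ : Type} [Fintype ι] [Fintype κ] [DecidableEq ι] (v : κ → ι → ℚ)
    (hv : LinearIndependent ℚ v) :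
    ∃ Q : Finset ι, Q.card + Fintype.card κ = Fintype.card ι ∧
      ∀ x : ι → ℚ, (∀ j, ∑ i, v j i * x i = 0) → (∀ i ∈ Q, x i = 0) → x = 0 := by
  classical
  obtain ⟨b, hb1, hb2, hb3, hb4⟩ := exists_linearIndepOn_id_extension
    (s := Set.range v) (t := Set.range v ∪ Set.range (fun i : ι => (Pi.single i 1 : ι → ℚ)))
    (hv.linearIndepOn_id) Set.subset_union_left
  have hspan : Submodule.span ℚ b = ⊤ := by
    rw [eq_top_iff]
    intro x _
    have hx : x = ∑ i, x i • (Pi.single i 1 : ι → ℚ) := by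
      funext i
      simp [Finset.sum_apply, Pi.single_apply]
    rw [hx]
    refine Submodule.sum_mem _ fun i _ => Submodule.smul_mem _ _ ?_
    exact hb3 (Or.inr ⟨i, rfl⟩)
  have hfin : b.Finite := by
    have : LinearIndependent ℚ (Subtype.val : b → (ι → ℚ)) := hb4
    exact this.setFinite
  have hcard : hfin.toFinset.card = Fintype.card ι := by
    have h1 : Module.finrank ℚ (ι → ℚ) = Fintype.card ι := Module.finrank_fintype_fun_eq_card ℚ
    have : Fintype b := hfin.fintype
    have h2 := finrank_span_set_eq_card (R := ℚ) (s := b) hb4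
    rw [hspan, finrank_top, h1] at h2
    rw [h2, Set.toFinset_card, hfin.card_toFinset]
  have hvinj : Function.Injective v := hv.injective
  refine ⟨(Finset.univ.filter fun i : ι => (Pi.single i 1 : ι → ℚ) ∈ b ∧
    (Pi.single i 1 : ι → ℚ) ∉ Set.range v), ?_, ?_⟩
  · have h1 : hfin.toFinset = (Finset.univ.filter fun i : ι => (Pi.single i 1 : ι → ℚ) ∈ b ∧
        (Pi.single i 1 : ι → ℚ) ∉ Set.range v).image (fun i => (Pi.single i 1 : ι → ℚ)) ∪
        Finset.univ.image v := by
      ext y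
      simp only [Set.Finite.mem_toFinset, Finset.mem_union, Finset.mem_image, Finset.mem_filter,
        Finset.mem_univ, true_and]
      constructor
      · intro hy
        by_cases hy2 : y ∈ Set.range v
        · right
          exact hy2
        · left
          rcases hb1 hy with h | ⟨i, hi⟩
          · exact absurd h hy2
          · subst hi
            exact ⟨i, ⟨hy, hy2⟩, rfl⟩
      · rintro (⟨i, ⟨h1, _⟩, rfl⟩ | ⟨j, rfl⟩)
        · exact h1
        · exact hb2 ⟨j, rfl⟩
    have hdisj : Disjoint ((Finset.univ.filter fun i : ι => (Pi.single i 1 : ι → ℚ) ∈ b ∧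
        (Pi.single i 1 : ι → ℚ) ∉ Set.range v).image (fun i => (Pi.single i 1 : ι → ℚ)))
        (Finset.univ.image v) := by
      rw [Finset.disjoint_left]
      intro y hy1 hy2
      rw [Finset.mem_image] at hy1 hy2
      obtain ⟨i, hi, rfl⟩ := hy1
      rw [Finset.mem_filter] at hi
      obtain ⟨j, _, hj⟩ := hy2
      exact hi.2.2 ⟨j, hj⟩
    have hinj1 : Function.Injective (fun i : ι => (Pi.single i 1 : ι → ℚ)) := by
      intro i j hij
      by_contra hne
      have := congrFun hij i
      simp [hne] at this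
    rw [← hcard, h1, Finset.card_union_of_disjoint hdisj, Finset.card_image_of_injective _ hinj1,
      Finset.card_image_of_injective _ hvinj, Finset.card_univ]
  · intro x hx1 hx2
    have horth : ∀ y ∈ b, ∑ i, y i * x i = 0 := by
      intro y hy
      by_cases hy2 : y ∈ Set.range v
      · obtain ⟨j, rfl⟩ := hy2
        exact hx1 j
      · rcases hb1 hy with h | ⟨i, hi⟩
        · exact absurd h hy2
        · subst hi
          have := hx2 i (by
            rw [Finset.mem_filter]
            exact ⟨Finset.mem_univ _, hy, hy2⟩)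
          simp [Pi.single_apply, this]
    have hall : ∀ y : ι → ℚ, ∑ i, y i * x i = 0 := by
      intro y
      have hy : y ∈ Submodule.span ℚ b := by rw [hspan]; trivial
      induction hy using Submodule.span_induction with
      | mem y hy => exact horth y hy
      | zero => simp
      | add y z _ _ hy hz => simp [add_mul, Finset.sum_add_distrib, hy, hz]
      | smul a y _ hy => simp [mul_assoc, ← Finset.mul_sum, hy]
    funext i
    have := hall (Pi.single i 1)
    simpa [Pi.single_apply] using this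

/-- **The pigeonhole principle with a non-vanishing condition** -/
theorem pigN {ι κ κ0 υ μ : Type} [Fintype ι] [Fintype κ] [Fintype κ0] [Fintype υ] [Fintype μ]
    (u : κ → ι → ℤ) (m0 : κ0 → ι → ℚ) (f : υ → ι → ℤ) (g : μ → ι → ℤ)
    (V : κ → ℕ) (Vf E : υ → ℕ) (m : μ → ℕ) (H : ℕ)
    (hV : ∀ j, ∑ i, |u j i| ≤ (V j : ℤ)) (hV1 : ∀ j, 1 ≤ V j)
    (hVf : ∀ j, ∑ i, |f j i| ≤ ((Vf j * E j : ℕ) : ℤ)) (hE : ∀ j, 1 ≤ E j) (hm : ∀ j, 1 ≤ m j)
    (hind : ∀ (y : κ0 → ℚ) (t : κ → ℚ),
      (∀ i, ∑ j, y j * m0 j i + ∑ j, t j * (u j i : ℚ) = 0) → y = 0)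
    (hcard : (∏ j, V j) * (∏ j, (H * Vf j + 1)) * ∏ j, m j < (H + 1) ^ Fintype.card κ0) :
    ∃ x : ι → ℤ, (∀ i, |x i| ≤ (H : ℤ)) ∧ (∀ j, ∑ i, u j i * x i = 0) ∧
      (∀ j, |∑ i, f j i * x i| < (E j : ℤ)) ∧ (∀ j, (m j : ℤ) ∣ ∑ i, g j i * x i) ∧
      ∃ j, ∑ i, m0 j i * (x i : ℚ) ≠ 0 := by
  classical
  -- the independent equations
  obtain ⟨K, hK1, hK2⟩ : ∃ K : Finset κ, LinearIndependent ℚ (fun j : K => fun i => (u j i : ℚ)) ∧
      ∀ j, (fun i => (u j i : ℚ)) ∈ Submodule.span ℚ (Set.range fun j : K => fun i => (u j i : ℚ)) := by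
    obtain ⟨s, hs1, hs2, hs3, hs4⟩ := exists_linearIndepOn_extension (K := ℚ)
      (v := fun (j : κ) (i : ι) => (u j i : ℚ)) (s := ∅) (t := Set.univ)
      (linearIndepOn_empty ℚ _) (Set.subset_univ _)
    refine ⟨s.toFinset, ?_, ?_⟩
    · have h1 : LinearIndependent ℚ (fun j : s => fun i => (u j i : ℚ)) := hs4
      have e : (s.toFinset : Set κ) = s := by simp
      exact h1.comp (fun j : s.toFinset => (⟨j.1, Set.mem_toFinset.1 j.2⟩ : s)) (by
        intro a b hab
        exact Subtype.ext (congrArg (fun x : s => x.1) hab))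
    · intro j
      have h2 := hs3 (Set.mem_image_of_mem _ (Set.mem_univ j))
      refine Submodule.span_mono ?_ h2
      rintro _ ⟨j', hj', rfl⟩
      exact ⟨⟨j', by simpa using hj'⟩, rfl⟩
  have hlin : LinearIndependent ℚ (Sum.elim (fun j : K => fun i => (u j i : ℚ)) m0) := by
    rw [Fintype.linearIndependent_iff]
    intro c hc
    have hc' : ∀ i, ∑ j, c (Sum.inr j) * m0 j i + ∑ j : K, c (Sum.inl j) * (u j i : ℚ) = 0 := by
      intro i
      have := congrFun hc i
      rw [Fintype.sum_sum_type] at this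
      simp only [Sum.elim_inl, Sum.elim_inr, Pi.add_apply, Finset.sum_apply, Pi.smul_apply,
        smul_eq_mul, Pi.zero_apply] at this
      linarith
    have hy := hind (fun j => c (Sum.inr j)) (fun j => if hj : j ∈ K then c (Sum.inl ⟨j, hj⟩) else 0)
      (by
        intro i
        refine Eq.trans ?_ (hc' i)
        congr 1
        have e1 : ∀ j : κ, (if hj : j ∈ K then c (Sum.inl ⟨j, hj⟩) else 0) * (u j i : ℚ) =
            if hj : j ∈ K then c (Sum.inl ⟨j, hj⟩) * (u j i : ℚ) else 0 := by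
          intro j
          split_ifs <;> simp
        beta_reduce
        rw [Finset.sum_congr rfl fun j _ => e1 j]
        rw [← Finset.sum_subset (Finset.subset_univ K)
          (fun j _ hj => by rw [dif_neg hj])]
        rw [← Finset.sum_attach K]
        refine Finset.sum_congr rfl fun j _ => ?_
        rw [dif_pos j.2])
    have hyr : ∀ j, c (Sum.inr j) = 0 := fun j => congrFun hy j
    have hK := Fintype.linearIndependent_iff.1 hK1 (fun j => c (Sum.inl j)) (by
      funext i
      have := hc' i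
      simp only [hyr, zero_mul, Finset.sum_const_zero, zero_add] at this
      simp only [Finset.sum_apply, Pi.smul_apply, smul_eq_mul, Pi.zero_apply]
      exact this)
    rintro (j | j)
    · exact hK j
    · exact hyr j
  obtain ⟨Q, hQ1, hQ2⟩ := exists_units _ hlin
  rw [Fintype.card_sum, Fintype.card_coe] at hQ1
  -- the extended system
  have key := pigE (ι := ι) (κ := (K ⊕ Q) ⊕ υ) (μ := μ)
    (Sum.elim (Sum.elim (fun j : K => u j) (fun q : Q => fun i => if i = q then 1 else 0)) f) g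
    (Sum.elim (Sum.elim (fun j : K => V j) (fun _ => 1)) Vf) (Sum.elim (fun _ => 1) E) m H
    (by
      rintro ((j | q) | j)
      · simpa using hV j
      · simp [apply_ite abs]
      · simpa using hVf j)
    (by
      rintro (j | j)
      · exact le_rfl
      · exact hE j)
    hm
    (by
      simp only [Fintype.prod_sum_type, Sum.elim_inl, Sum.elim_inr, mul_one]
      rw [Finset.prod_const, Finset.card_univ, Fintype.card_coe]
      have h1 : ∏ j : K, (H * V j + 1) ≤ (H + 1) ^ K.card * ∏ j, V j := by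
        calc ∏ j : K, (H * V j + 1) ≤ ∏ j : K, ((H + 1) * V j) := by
              refine Finset.prod_le_prod' fun j _ => ?_
              have := hV1 j
              nlinarith
          _ = (H + 1) ^ K.card * ∏ j : K, V j := by
              rw [Finset.prod_mul_distrib, Finset.prod_const, Finset.card_univ, Fintype.card_coe]
          _ ≤ (H + 1) ^ K.card * ∏ j, V j := by
              apply Nat.mul_le_mul_left
              rw [Finset.prod_coe_sort K (fun j => V j)]
              exact Finset.prod_le_prod_of_subset_of_one_le' (Finset.subset_univ K)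
                (fun j _ _ => hV1 j)
      calc (∏ j : K, (H * V j + 1)) * (H + 1) ^ Q.card * (∏ j, (H * Vf j + 1)) * ∏ j, m j
          ≤ ((H + 1) ^ K.card * ∏ j, V j) * (H + 1) ^ Q.card * (∏ j, (H * Vf j + 1)) * ∏ j, m j := by
            gcongr
        _ = (H + 1) ^ (K.card + Q.card) * ((∏ j, V j) * (∏ j, (H * Vf j + 1)) * ∏ j, m j) := by
            rw [pow_add]
            ring
        _ < (H + 1) ^ (K.card + Q.card) * (H + 1) ^ Fintype.card κ0 :=
            Nat.mul_lt_mul_of_pos_left hcard (by positivity)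
        _ = (H + 1) ^ Fintype.card ι := by
            rw [← pow_add]
            congr 1
            omega)
  obtain ⟨x, hx0, hxH, hxf, hxg⟩ := key
  have hxK : ∀ j : K, ∑ i, u j i * x i = 0 := by
    intro j
    have := hxf (Sum.inl (Sum.inl j))
    simp only [Sum.elim_inl, Nat.cast_one] at this
    exact Int.abs_lt_one_iff.1 this
  have hxQ : ∀ q ∈ Q, x q = 0 := by
    intro q hq
    have := hxf (Sum.inl (Sum.inr ⟨q, hq⟩))
    simp only [Sum.elim_inl, Sum.elim_inr, Nat.cast_one, ite_mul, one_mul, zero_mul,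
      Finset.sum_ite_eq', Finset.mem_univ, if_true] at this
    exact Int.abs_lt_one_iff.1 this
  have hxu : ∀ j, ∑ i, u j i * x i = 0 := by
    intro j
    have h1 : ∀ y ∈ Submodule.span ℚ (Set.range fun j : K => fun i => (u j i : ℚ)),
        ∑ i, y i * (x i : ℚ) = 0 := by
      intro y hy
      induction hy using Submodule.span_induction with
      | mem y hy =>
        obtain ⟨j', rfl⟩ := hy
        have := hxK j'
        beta_reduce
        exact_mod_cast this
      | zero => simp
      | add y z _ _ hy hz => simp [add_mul, Finset.sum_add_distrib, hy, hz]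
      | smul a y _ hy => simp [mul_assoc, ← Finset.mul_sum, hy]
    have h2 := h1 _ (hK2 j)
    exact_mod_cast h2
  refine ⟨x, hxH, hxu, fun j => ?_, hxg, ?_⟩
  · have := hxf (Sum.inr j)
    simpa using this
  · by_contra hcon
    push Not at hcon
    have h0 := hQ2 (fun i => (x i : ℚ)) (by
      rintro (j | j)
      · simp only [Sum.elim_inl]
        exact_mod_cast hxK j
      · simp only [Sum.elim_inr]
        exact hcon j) (by
      intro i hi
      show (x i : ℚ) = 0
      rw [hxQ i hi, Int.cast_zero])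
    apply hx0
    funext i
    have := congrFun h0 i
    simp only [Pi.zero_apply] at this
    exact_mod_cast this

end Pool.Agent.H494.DZ
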