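import Pool.Graph.R_pool_sql_team_seeded_63374d34.N797.PW.J_SG
import Pool.Graph.R_pool_sql_team_seeded_63374d34.N797.PW.J_SPL
import Pool.Graph.R_pool_sql_team_seeded_63374d34.N797.PW.J_INT
import Pool.Graph.R_pool_sql_team_seeded_63374d34.N797.PW.J_JB
import Pool.Graph.R_pool_sql_team_seeded_63374d34.N797.PW.J_JZI
import Pool.Graph.R_pool_sql_team_seeded_63374d34.N797.PW.J_SML
import Pool.Graph.R_seed8.Y926.LZ.NonX
import Pool.Agent.H494.DZ.Pig
import Pool.Agent.H494.DZ.Ze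

/-!
# The functionals in terms of the unknowns, and their independence
-/

set_option autoImplicit false

open Polynomial Pool.Agent.H337R2 Pool.Agent.W165.OZ Pool.Agent.Y926.LZ Pool.Agent.Y926.TW Pool.Agent.N797.PW

namespace Pool.Agent.H494.DZ

noncomputable section

open JSG Finset

variable {h ν : ℕ}

/-- the coefficient vector of the functional given by a family of germs -/
def ce (h ν : ℕ) (E : ℕ → PowerSeries ℚ) (q : Fin (2 * h) × Fin ν) : ℚ :=
  PowerSeries.coeff q.1 (E q.2) + (-1) ^ (q.1 : ℕ) * PowerSeries.coeff q.1 (E (2 * ν - q.2))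

theorem LF_ce (x : Fin (2 * h) × Fin ν → ℤ) (E : ℕ → PowerSeries ℚ) :
    LF h (2 * ν + 1) (cx x) E = ∑ q, ce h ν E q * (x q : ℚ) := by
  unfold LF
  rw [sum_range_odd]
  have h0 : ∑ i ∈ Icc 1 (2 * h), (cx x i ν : ℚ) * PowerSeries.coeff (i - 1) (E ν) = 0 :=
    sum_eq_zero fun i _ => by rw [cx_mid, Int.cast_zero, zero_mul]
  rw [h0, add_zero, Fintype.sum_prod_type]
  simp_rw [sum_Icc1, ← sum_add_distrib]
  rw [sum_comm, sum_range]
  refine sum_congr rfl fun a _ => ?_
  rw [sum_range]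
  refine sum_congr rfl fun k _ => ?_
  have ha := a.2
  have hk := k.2
  rw [cx_small x ha hk, cx_large x ha hk]
  unfold ce xx
  rw [dif_pos ⟨ha, hk⟩]
  simp only [Nat.add_sub_cancel]
  push_cast
  ring

theorem ce_add (E E' : ℕ → PowerSeries ℚ) (q : Fin (2 * h) × Fin ν) :
    ce h ν (fun k => E k + E' k) q = ce h ν E q + ce h ν E' q := by
  unfold ce
  simp only [map_add]
  ring

theorem ce_C (a : ℚ) (E : ℕ → PowerSeries ℚ) (q : Fin (2 * h) × Fin ν) :
    ce h ν (fun k => PowerSeries.C a * E k) q = a * ce h ν E q := by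
  unfold ce
  simp only [PowerSeries.coeff_C_mul]
  ring

theorem ce_sum {α : Type} (s : Finset α) (E : α → ℕ → PowerSeries ℚ) (q : Fin (2 * h) × Fin ν) :
    ce h ν (fun k => ∑ a ∈ s, E a k) q = ∑ a ∈ s, ce h ν (E a) q := by
  unfold ce
  simp only [map_sum, Finset.mul_sum, Finset.sum_add_distrib]

/-- a vanishing functional -/
theorem germ_of_ce {E : ℕ → PowerSeries ℚ} (hE : ∀ q, ce h ν E q = 0) (k : ℕ) (hk : k < ν) :
    (PowerSeries.X : PowerSeries ℚ) ^ (2 * h) ∣ E k + PowerSeries.rescale (-1 : ℚ) (E (2 * ν - k)) := by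
  rw [PowerSeries.X_pow_dvd_iff]
  intro m hm
  have h1 := hE (⟨m, hm⟩, ⟨k, hk⟩)
  unfold ce at h1
  rw [map_add, PowerSeries.coeff_rescale]
  exact h1

/-- the germ of the homogeneous functional -/
def eh (za : ℕ → ℚ) (h β : ℕ) : PowerSeries ℚ :=
  ∑ i ∈ Icc 1 (2 * h), PowerSeries.C (Cb β i * za (i + β)) * PowerSeries.X ^ (i - 1)

/-- the homogeneous part of the linear form -/
def Hom (za : ℕ → ℚ) (h n : ℕ) (c : ℕ → ℕ → ℤ) (g : ℚ[X]) (β : ℕ) : ℚ :=
  ∑ i ∈ Icc 1 (2 * h), Cb β i * rh h n c g i * za (i + β)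

theorem Hom_eq (za : ℕ → ℚ) (h n : ℕ) (c : ℕ → ℕ → ℤ) (g : ℚ[X]) (β : ℕ) :
    Hom za h n c g β = LF h n c (fun k => TS (-(k : ℚ)) g * eh za h β) := by
  unfold Hom eh
  have h1 : ∀ k : ℕ, TS (-(k : ℚ)) g * ∑ i ∈ Icc 1 (2 * h),
      PowerSeries.C (Cb β i * za (i + β)) * PowerSeries.X ^ (i - 1) =
      ∑ i ∈ Icc 1 (2 * h), PowerSeries.C (Cb β i * za (i + β)) *
        (PowerSeries.X ^ (i - 1) * TS (-(k : ℚ)) g) := by
    intro k
    rw [Finset.mul_sum]
    refine Finset.sum_congr rfl fun i _ => ?_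
    ring
  simp only [h1]
  rw [SPL.LF_sum]
  refine Finset.sum_congr rfl fun i _ => ?_
  rw [SPL.LF_C_mul]
  unfold rh
  ring

theorem bt_split (za : ℕ → ℚ) (h β k : ℕ) : bt za h β 1 k = eh za h β + bt 0 h β 1 k := by
  unfold bt eh
  rw [← Finset.sum_add_distrib]
  refine Finset.sum_congr rfl fun i _ => ?_
  rw [← add_mul, ← map_add]
  congr 2
  simp
  ring

theorem bs_split (za : ℕ → ℚ) (n h β k : ℕ) : bs za n h β 1 k - bs 0 n h β 1 k =
    eh za h β + PowerSeries.rescale (-1 : ℚ) (eh za h β) := by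
  unfold bs
  rw [bt_split za h β k, bt_split za h β (n - 1 - k), map_add]
  ring

/-- the reflection of the multipliers -/
theorem gq_refl {k : ℕ} (hk : k < ν) (l : ℕ) :
    PowerSeries.rescale (-1 : ℚ) (TS (-((2 * ν - k : ℕ) : ℚ)) (gq (2 * ν + 1) l)) =
      TS (-(k : ℚ)) (gq (2 * ν + 1) l) := by
  ext j
  have h1 := INT.coeff_refl (n := 2 * ν + 1) (k := k) (by omega) l j
  have e : 2 * ν + 1 - 1 - k = 2 * ν - k := by omega
  rw [e] at h1
  rw [PowerSeries.coeff_rescale, h1, ← mul_assoc, ← mul_pow]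
  norm_num

theorem gq_natDegree (n l : ℕ) : (gq n l).natDegree = 2 * l := by
  unfold gq
  rw [Polynomial.natDegree_comp, (Gb_spec n l).2]
  have : (yp n).natDegree = 2 := by
    unfold yp
    rw [Polynomial.natDegree_mul Polynomial.X_ne_zero (Polynomial.X_add_C_ne_zero _),
      Polynomial.natDegree_X, Polynomial.natDegree_X_add_C]
  rw [this, mul_comm]

/-- the multipliers are linearly independent -/
theorem gq_ind {n N : ℕ} (y : Fin N → ℚ) (hy : ∑ l : Fin N, C (y l) * gq n l = 0) : y = 0 := by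
  by_contra hne
  obtain ⟨l1, hl1⟩ := Function.ne_iff.1 hne
  classical
  let s : Finset (Fin N) := Finset.univ.filter fun l => y l ≠ 0
  have hs : s.Nonempty := ⟨l1, Finset.mem_filter.2 ⟨Finset.mem_univ _, hl1⟩⟩
  obtain ⟨l0, hl0⟩ : ∃ l0, l0 = s.max' hs := ⟨_, rfl⟩
  have hm : y l0 ≠ 0 := by
    have := s.max'_mem hs
    rw [← hl0] at this
    exact (Finset.mem_filter.1 this).2
  have hcoef : (∑ l : Fin N, C (y l) * gq n l).coeff (2 * l0) = y l0 * (gq n l0).coeff (2 * l0) := by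
    rw [Polynomial.finsetSum_coeff, Finset.sum_eq_single l0]
    · rw [Polynomial.coeff_C_mul]
    · intro l _ hl
      rw [Polynomial.coeff_C_mul]
      by_cases hyl : y l = 0
      · rw [hyl, zero_mul]
      · have h1 : l ≤ l0 := by
          rw [hl0]
          exact s.le_max' l (Finset.mem_filter.2 ⟨Finset.mem_univ _, hyl⟩)
        have h2 : (l : ℕ) < l0 := lt_of_le_of_ne h1 (fun h => hl (Fin.ext h))
        rw [Polynomial.coeff_eq_zero_of_natDegree_lt (by rw [gq_natDegree]; omega), mul_zero]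
    · intro h
      exact absurd (Finset.mem_univ _) h
  rw [hy, Polynomial.coeff_zero] at hcoef
  have hne2 : gq n l0 ≠ 0 := by
    intro h0
    rcases Nat.eq_zero_or_pos (l0 : ℕ) with h1 | h1
    · have h2 : gq n l0 = Polynomial.C ((Gb n 0).coeff 0) := by
        unfold gq
        rw [h1]
        have h3 : Gb n 0 = Polynomial.C ((Gb n 0).coeff 0) :=
          Polynomial.eq_C_of_natDegree_eq_zero (Gb_spec n 0).2
        rw [h3, Polynomial.C_comp, Polynomial.coeff_C_zero]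
      rw [h2, Polynomial.C_eq_zero] at h0
      apply (Gb_spec n 0).1
      rw [Polynomial.eq_C_of_natDegree_eq_zero (Gb_spec n 0).2, h0, Polynomial.C_0]
    · have h2 := gq_natDegree n l0
      rw [h0, Polynomial.natDegree_zero] at h2
      omega
  have h1 : (gq n l0).coeff (2 * l0) ≠ 0 := by
    have h3 : (gq n l0).leadingCoeff ≠ 0 := Polynomial.leadingCoeff_ne_zero.2 hne2
    rwa [Polynomial.leadingCoeff, gq_natDegree] at h3
  exact (mul_ne_zero hm h1) hcoef.symm

/-- **The independence of the forms** modulo the equations. -/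
theorem indep {A M b γ w : ℕ} (z0 : ℕ → ℚ) (za : Fin A → ℕ → ℚ) (hb : Even b) (hh : 1 ≤ h)
    (hγw : γ ≤ w) (hm : (A + 1) * M < ν)
    (hineq : (A + 1) * M * (2 * (γ * (2 * ν + 1))) + 2 * (w * (2 * ν + 1)) +
      (A + 1) * M * (2 * (b + 2 * M)) < 2 * h * (ν - (A + 1) * M))
    (y : Fin M → Fin (γ * (2 * ν + 1) + 1) → ℚ) (t : Fin (w * (2 * ν + 1) + 1) → ℚ)
    (s : Fin A → Fin M → Fin (γ * (2 * ν + 1) + 1) → ℚ)
    (hz : ∀ q, ∑ j, ∑ l, y j l *
        ce h ν (fun k => TS (-(k : ℚ)) (gq (2 * ν + 1) l) * bt z0 h (b + 2 * j) 1 k) q +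
      (∑ l, t l * ce h ν (fun k => TS (-(k : ℚ)) (gq (2 * ν + 1) l)) q +
        ∑ a, ∑ j, ∑ l, s a j l *
          ce h ν (fun k => TS (-(k : ℚ)) (gq (2 * ν + 1) l) * eh (za a) h (b + 2 * j)) q) = 0) :
    y = 0 := by
  obtain ⟨n, hn⟩ : ∃ n, n = 2 * ν + 1 := ⟨_, rfl⟩
  have hg2 : ∀ {N : ℕ} (y : Fin N → ℚ), (∑ l : Fin N, C (y l) * gq (2 * ν + 1) l).natDegree ≤
      2 * (N - 1) := by
    intro N y
    refine Polynomial.natDegree_sum_le_of_forall_le _ _ fun l _ => ?_
    refine (Polynomial.natDegree_C_mul_le _ _).trans ?_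
    rw [gq_natDegree]
    omega
  have hrefl : ∀ {N : ℕ} (y : Fin N → ℚ) (k : ℕ), k < ν →
      PowerSeries.rescale (-1 : ℚ) (TS (-((2 * ν - k : ℕ) : ℚ))
        (∑ l : Fin N, C (y l) * gq (2 * ν + 1) l)) =
      TS (-(k : ℚ)) (∑ l : Fin N, C (y l) * gq (2 * ν + 1) l) := by
    intro N y k hk
    simp only [map_sum, map_mul, TS_C]
    refine Finset.sum_congr rfl fun l _ => ?_
    rw [gq_refl hk]
    congr 1
    ext j
    rw [PowerSeries.coeff_rescale, PowerSeries.coeff_C]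
    split_ifs with h0
    · rw [h0, pow_zero, one_mul]
    · rw [mul_zero]
  -- the total germ
  obtain ⟨Et, hEt⟩ : ∃ Et : ℕ → PowerSeries ℚ, ∀ k : ℕ, Et k =
      ∑ j, TS (-(k : ℚ)) (∑ l, C (y j l) * gq (2 * ν + 1) l) * bt z0 h (b + 2 * j) 1 k +
      (TS (-(k : ℚ)) (∑ l, C (t l) * gq (2 * ν + 1) l) +
        ∑ a, ∑ j, TS (-(k : ℚ)) (∑ l, C (s a j l) * gq (2 * ν + 1) l) * eh (za a) h (b + 2 * j)) :=
    ⟨_, fun _ => rfl⟩
  have hEt0 : ∀ q, ce h ν Et q = 0 := by
    intro q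
    rw [← hz q]
    have e1 : Et = fun k : ℕ => (∑ j, ∑ l, PowerSeries.C (y j l) *
          (TS (-(k : ℚ)) (gq (2 * ν + 1) l) * bt z0 h (b + 2 * j) 1 k)) +
        (∑ l, PowerSeries.C (t l) * TS (-(k : ℚ)) (gq (2 * ν + 1) l) +
          ∑ a, ∑ j, ∑ l, PowerSeries.C (s a j l) *
            (TS (-(k : ℚ)) (gq (2 * ν + 1) l) * eh (za a) h (b + 2 * j))) := by
      funext k
      rw [hEt]
      simp only [map_sum, map_mul, TS_C, Finset.sum_mul, mul_assoc]
    rw [e1, ce_add, ce_sum, ce_add, ce_sum, ce_sum]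
    congr 1
    · refine Finset.sum_congr rfl fun j _ => ?_
      rw [ce_sum]
      exact Finset.sum_congr rfl fun l _ => ce_C _ _ _
    · congr 1
      · exact Finset.sum_congr rfl fun l _ => ce_C _ _ _
      · refine Finset.sum_congr rfl fun a _ => ?_
        rw [ce_sum]
        refine Finset.sum_congr rfl fun j _ => ?_
        rw [ce_sum]
        exact Finset.sum_congr rfl fun l _ => ce_C _ _ _
  have hg0 := dze (A := A) (M := M) (b := b) (h := h) (ν := ν) (γ := γ) (w := w) z0 za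
    (fun j => ∑ l, C (y j l) * gq (2 * ν + 1) l)
    (fun a j => ∑ l, C (s a j l) * gq (2 * ν + 1) l)
    (-(C 2 * ∑ l, C (t l) * gq (2 * ν + 1) l)) hb hh
    (fun j => (hg2 (y j)).trans (by omega))
    (fun a j => (hg2 (s a j)).trans (by omega))
    (by
      rw [Polynomial.natDegree_neg]
      exact (Polynomial.natDegree_C_mul_le _ _).trans ((hg2 t).trans (by omega)))
    hγw
    (by
      intro k hk
      have h1 := germ_of_ce hEt0 k hk
      have h2 : ∑ j, TS (-(k : ℚ)) (∑ l, C (y j l) * gq (2 * ν + 1) l) *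
            bs z0 (2 * ν + 1) h (b + 2 * j) 1 k +
          ∑ a, ∑ j, TS (-(k : ℚ)) (∑ l, C (s a j l) * gq (2 * ν + 1) l) *
            (bs (za a) (2 * ν + 1) h (b + 2 * j) 1 k - bs 0 (2 * ν + 1) h (b + 2 * j) 1 k) -
          TS (-(k : ℚ)) (-(C 2 * ∑ l, C (t l) * gq (2 * ν + 1) l)) =
          Et k + PowerSeries.rescale (-1 : ℚ) (Et (2 * ν - k)) := by
        rw [hEt, hEt]
        simp only [map_add, bs_split]
        have e2 : ∀ (F : Fin M → ℕ → PowerSeries ℚ), PowerSeries.rescale (-1 : ℚ)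
            (∑ j, TS (-((2 * ν - k : ℕ) : ℚ)) (∑ l, C (y j l) * gq (2 * ν + 1) l) * F j (2 * ν - k)) =
            ∑ j, TS (-(k : ℚ)) (∑ l, C (y j l) * gq (2 * ν + 1) l) *
              PowerSeries.rescale (-1 : ℚ) (F j (2 * ν - k)) := by
          intro F
          rw [map_sum]
          refine Finset.sum_congr rfl fun j _ => ?_
          rw [map_mul, hrefl (y j) k hk]
        have e3 : PowerSeries.rescale (-1 : ℚ) (∑ a, ∑ j, TS (-((2 * ν - k : ℕ) : ℚ))
            (∑ l, C (s a j l) * gq (2 * ν + 1) l) * eh (za a) h (b + 2 * j)) =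
            ∑ a, ∑ j, TS (-(k : ℚ)) (∑ l, C (s a j l) * gq (2 * ν + 1) l) *
              PowerSeries.rescale (-1 : ℚ) (eh (za a) h (b + 2 * j)) := by
          rw [map_sum]
          refine Finset.sum_congr rfl fun a _ => ?_
          rw [map_sum]
          refine Finset.sum_congr rfl fun j _ => ?_
          rw [map_mul, hrefl (s a j) k hk]
        rw [e2 (fun j => bt z0 h (b + 2 * j) 1), e3, hrefl t k hk]
        have e4 : ∀ j : Fin M, bs z0 (2 * ν + 1) h (b + 2 * j) 1 k =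
            bt z0 h (b + 2 * j) 1 k + PowerSeries.rescale (-1 : ℚ) (bt z0 h (b + 2 * j) 1 (2 * ν - k)) := by
          intro j
          unfold bs
          rw [Nat.add_sub_cancel]
        simp only [e4, mul_add, Finset.sum_add_distrib, map_neg, map_mul, TS_C]
        have e5 : (PowerSeries.C (2 : ℚ)) = 2 := by
          rw [show (2 : ℚ) = ((2 : ℕ) : ℚ) by norm_num, map_natCast]
          norm_num
        rw [e5]
        ring
      rw [h2]
      exact h1)
    hm hineq
  funext j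
  have h1 := hg0 j
  exact gq_ind (y j) h1

end

end Pool.Agent.H494.DZ
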