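import Pool.Agent.H494.DZ.Fin

/-!
# The growth of the dimension
-/

set_option autoImplicit false

open Pool.Agent.H337R2 Module

namespace Pool.Agent.H494.DZ

theorem growth (s : ℕ) (hs : 3 ≤ s) :
    1 / 2 ^ 16 * ((s : ℝ) * Real.log s) ^ ((1 : ℝ) / 3) ≤ finrank ℚ (Submodule.span ℚ
      ({x : ℝ | x = 1 ∨ ∃ j, 2 < j ∧ j ≤ s ∧ Odd j ∧ x = zr j} : Set ℝ)) := by
  have hs3 : (3 : ℝ) ≤ s := by exact_mod_cast hs
  have hlog : 1 ≤ Real.log s := by
    rw [Real.le_log_iff_exp_le (by linarith)]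
    have := Real.exp_one_lt_d9
    linarith
  obtain ⟨X, hX⟩ : ∃ X : ℝ, X = 1 / 2 ^ 16 * ((s : ℝ) * Real.log s) ^ ((1 : ℝ) / 3) := ⟨_, rfl⟩
  have hX0 : 0 ≤ X := by
    rw [hX]
    positivity
  have hX3 : X ^ 3 = 1 / 2 ^ 48 * ((s : ℝ) * Real.log s) := by
    rw [hX, mul_pow, ← Real.rpow_natCast (((s : ℝ) * Real.log s) ^ ((1 : ℝ) / 3)) 3,
      ← Real.rpow_mul (by positivity)]
    norm_num
  rw [← hX]
  obtain ⟨S, hS⟩ : ∃ S, S = ⌊X⌋₊ := ⟨_, rfl⟩
  have hSX : (S : ℝ) ≤ X := by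
    rw [hS]
    exact Nat.floor_le hX0
  have hXS : X < (S : ℝ) + 1 := by
    rw [hS]
    exact Nat.lt_floor_add_one X
  have hfin : S + 1 ≤ finrank ℚ (Submodule.span ℚ
      ({x : ℝ | x = 1 ∨ ∃ j, 2 < j ∧ j ≤ s ∧ Odd j ∧ x = zr j} : Set ℝ)) := by
    apply dim_of_outside
    rcases Nat.eq_zero_or_pos S with h0 | h0
    · intro W _ h1 hW
      exfalso
      rw [h0] at hW
      have h2 : finrank ℚ W = 0 := by omega
      rw [Submodule.finrank_eq_zero] at h2
      rw [h2, Submodule.mem_bot] at h1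
      exact one_ne_zero h1
    · intro W _ h1 hW
      refine outside h0 ?_ W h1 hW
      unfold Win
      obtain ⟨L, hL⟩ : ∃ L, L = Nat.log 2 S + 1 := ⟨_, rfl⟩
      rw [← hL]
      have hL1 : 1 ≤ L := by omega
      have h2 : S < 2 ^ L := by
        rw [hL]
        exact Nat.lt_pow_succ_log_self (by norm_num) S
      have h3 : X < 2 ^ L := by
        refine lt_of_lt_of_le hXS ?_
        exact_mod_cast (Nat.succ_le_of_lt h2)
      -- the logarithm of `s`
      have h4 : (s : ℝ) < 2 ^ (3 * L + 48) := by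
        have h5 : X ^ 3 < (2 ^ L) ^ 3 := pow_lt_pow_left₀ h3 hX0 (by norm_num)
        rw [hX3] at h5
        have h6 : (s : ℝ) ≤ s * Real.log s := le_mul_of_one_le_right (by linarith) hlog
        have h7 : (2 : ℝ) ^ (3 * L + 48) = 2 ^ 48 * (2 ^ L) ^ 3 := by
          rw [pow_add, mul_comm 3 L, pow_mul]
          ring
        rw [h7]
        calc (s : ℝ) ≤ s * Real.log s := h6
          _ = 2 ^ 48 * (1 / 2 ^ 48 * ((s : ℝ) * Real.log s)) := by ring
          _ < 2 ^ 48 * (2 ^ L) ^ 3 := mul_lt_mul_of_pos_left h5 (by positivity)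
      have h5 : Real.log s ≤ 51 * L := by
        have h6 : Real.log s ≤ Real.log (2 ^ (3 * L + 48)) :=
          Real.log_le_log (by linarith) h4.le
        rw [Real.log_pow] at h6
        have h7 : Real.log 2 ≤ 1 := by
          have := Real.log_two_lt_d9
          linarith
        have h8 : ((3 * L + 48 : ℕ) : ℝ) ≤ 51 * L := by
          have : 3 * L + 48 ≤ 51 * L := by omega
          exact_mod_cast this
        have h9 : (0 : ℝ) ≤ ((3 * L + 48 : ℕ) : ℝ) := by positivity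
        calc Real.log s ≤ ((3 * L + 48 : ℕ) : ℝ) * Real.log 2 := h6
          _ ≤ ((3 * L + 48 : ℕ) : ℝ) * 1 := mul_le_mul_of_nonneg_left h7 h9
          _ ≤ 51 * L := by rw [mul_one]; exact h8
      have h6 : (2 : ℝ) ^ 40 * ((S : ℝ) ^ 2 * (2 + S)) ≤ s * L := by
        have hS1 : (1 : ℝ) ≤ S := by exact_mod_cast h0
        have h7 : (S : ℝ) ^ 2 * (2 + S) ≤ 3 * X ^ 3 := by
          calc (S : ℝ) ^ 2 * (2 + S) ≤ (S : ℝ) ^ 2 * (3 * S) := by
                gcongr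
                linarith
            _ = 3 * (S : ℝ) ^ 3 := by ring
            _ ≤ 3 * X ^ 3 := by gcongr
        rw [hX3] at h7
        calc (2 : ℝ) ^ 40 * ((S : ℝ) ^ 2 * (2 + S))
            ≤ 2 ^ 40 * (3 * (1 / 2 ^ 48 * ((s : ℝ) * Real.log s))) := by gcongr
          _ ≤ 2 ^ 40 * (3 * (1 / 2 ^ 48 * ((s : ℝ) * (51 * L)))) := by gcongr
          _ = (153 / 256) * (s * L) := by ring
          _ ≤ 1 * (s * L) := by
              gcongr
              norm_num
          _ = s * L := one_mul _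
      exact_mod_cast h6
  have h1 : ((S + 1 : ℕ) : ℝ) ≤ (finrank ℚ (Submodule.span ℚ
      ({x : ℝ | x = 1 ∨ ∃ j, 2 < j ∧ j ≤ s ∧ Odd j ∧ x = zr j} : Set ℝ)) : ℝ) := by
    exact_mod_cast hfin
  push_cast at h1
  linarith

end Pool.Agent.H494.DZ
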