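import Pool.Agent.H494.DZ.Fun

/-!
# The pigeonhole principle for our conditions
-/

set_option autoImplicit false

open Polynomial Pool.Agent.H337R2 Pool.Agent.W165.OZ Pool.Agent.Y926.LZ Pool.Agent.Y926.TW Pool.Agent.N797.PW

namespace Pool.Agent.H494.DZ

noncomputable section

open JSG Finset

variable {h ν : ℕ}

theorem cf_ce (E : ℕ → PowerSeries ℚ) (D : ℚ) (Φ : ℕ → ℕ → ℤ)
    (hΦ : ∀ i k, 1 ≤ i → i ≤ 2 * h → k < 2 * ν + 1 → D * PowerSeries.coeff (i - 1) (E k) = Φ i k)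
    (q : Fin (2 * h) × Fin ν) : ((cf Φ q : ℤ) : ℚ) = D * ce h ν E q := by
  unfold cf ce
  have h1 := q.1.2
  have h2 := q.2.2
  have e1 := hΦ (q.1 + 1) q.2 (by omega) (by omega) (by omega)
  have e2 := hΦ (q.1 + 1) (2 * ν - q.2) (by omega) (by omega) (by omega)
  rw [Nat.add_sub_cancel] at e1 e2
  push_cast
  rw [← e1, ← e2]
  ring

/-- the numerical condition for the pigeonhole principle -/
def DgNum (h ν r B w γ A M Zb W H : ℕ) : Prop :=
  (2 * ((2 * ν + 1) * (DW (2 * ν + 1) (2 * h) (2 * w + 2) * 8 ^ ((w + 1) * (2 * ν + 1))))) ^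
      (w * (2 * ν + 1) + 1) *
    (2 * ((2 * ν + 1) * (Zb * DW (2 * ν + 1) (2 * h) (2 * γ + 2) *
      8 ^ ((γ + 1) * (2 * ν + 1))))) ^ (A * (M * (γ * (2 * ν + 1) + 1))) *
    (H * (2 ^ (W * (2 * ν + 1)) * (2 * ((2 * ν + 1) * (2 * h * 2 ^ (2 * h + B))))) + 1) ^
      (r * (2 * ν + 1) * B) *
    (Dl (2 * ν + 1) 1 ^ (2 * h + B)) ^ ((2 * ν + 1) * B) < (H + 1) ^ (M * (γ * (2 * ν + 1) + 1))

/-- the coefficients of the product with the germ of the homogeneous functional -/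
theorem eh_int (h2 : S_JI) {n l γ q : ℕ} {za : ℕ → ℚ} {β : ℕ} (hn : 1 ≤ n) (hl : l ≤ γ * n)
    (hq : ∀ j, β < j → j ≤ 2 * h + β → ∃ a : ℤ, (q : ℚ) * za j = a) (k : ℕ) {i : ℕ} (hi : i < 2 * h) :
    ∃ m : ℤ, ((q : ℚ) * (DW n (2 * h) (2 * γ + 2) : ℚ)) *
      PowerSeries.coeff i (TS (-(k : ℚ)) (gq n l) * eh za h β) = m := by
  rw [PowerSeries.coeff_mul, Finset.mul_sum]
  have h3 : ∀ p ∈ Finset.HasAntidiagonal.antidiagonal i, ∃ m : ℤ,
      ((q : ℚ) * (DW n (2 * h) (2 * γ + 2) : ℚ)) *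
      (PowerSeries.coeff p.1 (TS (-(k : ℚ)) (gq n l)) * PowerSeries.coeff p.2 (eh za h β)) = m := by
    intro p hp
    rw [Finset.HasAntidiagonal.mem_antidiagonal] at hp
    obtain ⟨m1, hm1⟩ := h2 n l γ (2 * h) p.1 (-(k : ℤ)) hn hl (by omega)
    push_cast at hm1
    have h4 : PowerSeries.coeff p.2 (eh za h β) = Cb β (p.2 + 1) * za (p.2 + 1 + β) := by
      unfold eh
      rw [map_sum, sum_Icc1, Finset.sum_eq_single p.2]
      · rw [Nat.add_sub_cancel, PowerSeries.coeff_C_mul, PowerSeries.coeff_X_pow, if_pos rfl, mul_one]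
      · intro a _ ha
        rw [Nat.add_sub_cancel, PowerSeries.coeff_C_mul, PowerSeries.coeff_X_pow,
          if_neg (Ne.symm ha), mul_zero]
      · intro ha
        rw [Finset.mem_range] at ha
        omega
    obtain ⟨m2, hm2⟩ := hq (p.2 + 1 + β) (by omega) (by omega)
    refine ⟨m1 * (((p.2 + 1 - 1 + β).choose (p.2 + 1 - 1) : ℕ) * m2), ?_⟩
    rw [h4]
    unfold Cb
    push_cast
    rw [← hm1, ← hm2]
    ring
  choose! f hf using h3
  refine ⟨∑ p ∈ Finset.HasAntidiagonal.antidiagonal i, f p, ?_⟩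
  push_cast
  exact Finset.sum_congr rfl fun p hp => hf p hp

theorem eh_An (za : ℕ → ℚ) (h β : ℕ) :
    SML.An (2 * h) (eh za h β) = ∑ i ∈ Icc 1 (2 * h), |Cb β i * za (i + β)| := by
  rw [sum_Icc1]
  unfold SML.An
  refine Finset.sum_congr rfl fun j hj => ?_
  rw [Finset.mem_range] at hj
  congr 1
  unfold eh
  rw [map_sum, sum_Icc1, Finset.sum_eq_single j]
  · rw [Nat.add_sub_cancel, PowerSeries.coeff_C_mul, PowerSeries.coeff_X_pow, if_pos rfl, mul_one]
  · intro a _ ha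
    rw [Nat.add_sub_cancel, PowerSeries.coeff_C_mul, PowerSeries.coeff_X_pow,
      if_neg (Ne.symm ha), mul_zero]
  · intro ha
    rw [Finset.mem_range] at ha
    omega

/-- **The pigeonhole principle** with the non-vanishing of one of the forms -/
theorem dsg (h2 : S_JI) (h3 : S_JB) {r b w γ A M Zb W H q : ℕ} (z0 : ℕ → ℚ) (za : Fin A → ℕ → ℚ)
    (hb : Even b) (hh : 1 ≤ h)
    (hZb : 1 ≤ Zb) (hq1 : 1 ≤ q)
    (hq : ∀ a j, b < j → j ≤ 2 * h + (b + 2 * M) → ∃ m : ℤ, (q : ℚ) * za a j = m)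
    (hZ : ∀ (a : Fin A) (j : ℕ), j < M →
      (q : ℚ) * ∑ i ∈ Icc 1 (2 * h), |Cb (b + 2 * j) i * za a (i + (b + 2 * j))| ≤ (Zb : ℚ))
    (hγw : γ ≤ w) (hm : (A + 1) * M < ν)
    (hineq : (A + 1) * M * (2 * (γ * (2 * ν + 1))) + 2 * (w * (2 * ν + 1)) +
      (A + 1) * M * (2 * (b + 2 * M)) < 2 * h * (ν - (A + 1) * M))
    (hnum : DgNum h ν r (b + 2 * M) w γ A M Zb W H) :
    ∃ c : ℕ → ℕ → ℤ, AS h (2 * ν + 1) c ∧ (∀ i k, |c i k| ≤ (H : ℤ)) ∧
      TA h (2 * ν + 1) c (w * (2 * ν + 1)) ∧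
      (∀ (a : Fin A) (j : ℕ), j < M → ∀ l ≤ γ * (2 * ν + 1),
        Hom (za a) h (2 * ν + 1) c (gq (2 * ν + 1) l) (b + 2 * j) = 0) ∧
      (∀ t : ℤ, 1 ≤ t → t ≤ r * (2 * ν + 1 : ℕ) → ∀ β < b + 2 * M,
        |ev h (2 * ν + 1) c β t| < 1 / 2 ^ (W * (2 * ν + 1))) ∧
      TC h (2 * ν + 1) c (b + 2 * M) ∧
      ∃ j < M, ∃ l ≤ γ * (2 * ν + 1), Lz z0 h (2 * ν + 1) c (gq (2 * ν + 1) l) (b + 2 * j) ≠ 0 := by
  obtain ⟨n, hn⟩ : ∃ n, n = 2 * ν + 1 := ⟨_, rfl⟩
  obtain ⟨B, hB⟩ : ∃ B, B = b + 2 * M := ⟨_, rfl⟩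
  obtain ⟨e, he⟩ : ∃ e, e = 2 * h + B := ⟨_, rfl⟩
  obtain ⟨D, hD⟩ : ∃ D, D = DW n (2 * h) (2 * w + 2) := ⟨_, rfl⟩
  obtain ⟨D2, hD2⟩ : ∃ D2, D2 = DW n (2 * h) (2 * γ + 2) := ⟨_, rfl⟩
  have hDW : ∀ f g : ℕ, 0 < DW n f g := by
    intro f g
    unfold DW
    exact Nat.gcd_pos_of_pos_left _ (Nat.pow_pos (Pool.Agent.W165.OZ.PRaux.Dl_pos n 1))
  have hD0 : 0 < D := by rw [hD]; exact hDW _ _
  have hD20 : 0 < D2 := by rw [hD2]; exact hDW _ _
  have hDl : ∀ N, 0 < Dl N 1 := fun N => Pool.Agent.W165.OZ.PRaux.Dl_pos N 1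
  -- the entries of the kinds
  have hA : ∀ l i k : ℕ, ∃ m : ℤ, l ≤ w * n → i ≤ 2 * h →
      (D : ℚ) * PowerSeries.coeff i (TS (-(k : ℚ)) (gq n l)) = m := by
    intro l i k
    by_cases hl : l ≤ w * n ∧ i ≤ 2 * h
    · obtain ⟨m, hm⟩ := h2 n l w (2 * h) i (-(k : ℤ)) (by omega) hl.1 hl.2
      refine ⟨m, fun _ _ => ?_⟩
      rw [hD, ← hm]
      push_cast
      rfl
    · exact ⟨0, fun a b => absurd ⟨a, b⟩ hl⟩
  choose MA hMA using hA
  have hE : ∀ (a : Fin A) (j : Fin M) (l i k : ℕ), ∃ m : ℤ, l ≤ γ * n → i < 2 * h →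
      ((q : ℚ) * (D2 : ℚ)) *
        PowerSeries.coeff i (TS (-(k : ℚ)) (gq n l) * eh (za a) h (b + 2 * j)) = m := by
    intro a j l i k
    by_cases hl : l ≤ γ * n ∧ i < 2 * h
    · have hj := j.2
      obtain ⟨m, hm⟩ := eh_int (h := h) h2 (n := n) (l := l) (γ := γ) (q := q) (za := za a)
        (β := b + 2 * j) (by omega) hl.1 (fun j' h5 h6 => hq a j' (by omega) (by omega)) k hl.2
      refine ⟨m, fun _ _ => ?_⟩
      rw [hD2, ← hm]
    · exact ⟨0, fun a b => absurd ⟨a, b⟩ hl⟩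
  choose ME hME using hE
  have hBx : ∀ (N : ℕ) (t : ℤ) (β i k : ℕ), ∃ m : ℤ, t + k ≤ N → i + β ≤ e →
      (Dl N 1 : ℚ) ^ e * ph β t i k = m ∧ |m| ≤ 2 ^ e * (Dl N 1 : ℤ) ^ e := by
    intro N t β i k
    by_cases hl : t + k ≤ N ∧ i + β ≤ e
    · obtain ⟨m, hm⟩ := ent_ph (β := β) (i := i) (k := k) hl.1 hl.2
      exact ⟨m, fun _ _ => hm⟩
    · exact ⟨0, fun a b => absurd ⟨a, b⟩ hl⟩
  choose MB hMB using hBx
  obtain ⟨V1, hV1⟩ : ∃ V1, V1 = 2 * (n * (D * 8 ^ ((w + 1) * n))) := ⟨_, rfl⟩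
  obtain ⟨V3, hV3⟩ : ∃ V3, V3 = 2 * (n * (Zb * D2 * 8 ^ ((γ + 1) * n))) := ⟨_, rfl⟩
  obtain ⟨V2, hV2⟩ : ∃ V2, V2 = 2 ^ (W * n) * (2 * (n * (2 * h * 2 ^ e))) := ⟨_, rfl⟩
  have key := pigN (ι := Fin (2 * h) × Fin ν)
    (κ := Fin (w * n + 1) ⊕ (Fin A × (Fin M × Fin (γ * n + 1)))) (κ0 := Fin M × Fin (γ * n + 1))
    (υ := Fin (r * n) × Fin B) (μ := Fin n × Fin B)
    (Sum.elim (fun l => cf fun i k => MA l (i - 1) k)
      (fun p => cf fun i k => ME p.1 p.2.1 p.2.2 (i - 1) k))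
    (fun p q => ce h ν (fun k => TS (-(k : ℚ)) (gq n p.2) * bt z0 h (b + 2 * p.1) 1 k) q)
    (fun p q => 2 ^ (W * n) * cf (fun i k => MB ((r + 1) * n) (((p.1 : ℕ) : ℤ) + 1) p.2 i k) q)
    (fun p => cf fun i k => MB n (-((p.1 : ℕ) : ℤ)) p.2 i k)
    (Sum.elim (fun _ => V1) fun _ => V3) (fun _ => V2) (fun _ => Dl ((r + 1) * n) 1 ^ e)
    (fun _ => Dl n 1 ^ e) H ?_ ?_ ?_ ?_ ?_ ?_ ?_
  · obtain ⟨x, hxH, hxu, hxf, hxg, ⟨j0, l0⟩, hx0⟩ := key
    refine ⟨cx x, cx_as x, cx_le x hxH, ?_, ?_, ?_, ?_, ?_⟩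
    · intro l hl
      rw [← hn] at hl ⊢
      have h4 := functional x (fun i k => PowerSeries.coeff (i - 1) (TS (-(k : ℚ)) (gq n l))) D
        (fun i k => MA l (i - 1) k) fun i k _ _ _ => hMA l (i - 1) k hl (by omega)
      have h5 := hxu (Sum.inl ⟨l, by omega⟩)
      simp only [Sum.elim_inl] at h5
      rw [h5, Int.cast_zero] at h4
      unfold LF
      rw [← hn] at h4
      rcases mul_eq_zero.1 h4 with h6 | h6
      · exact absurd h6 (by exact_mod_cast hD0.ne')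
      · exact h6
    · intro a j hj l hl
      rw [← hn] at hl ⊢
      rw [Hom_eq]
      have h4 := functional x (fun i k => PowerSeries.coeff (i - 1)
          (TS (-(k : ℚ)) (gq n l) * eh (za a) h (b + 2 * j))) ((q : ℚ) * (D2 : ℚ))
        (fun i k => ME a ⟨j, hj⟩ l (i - 1) k) fun i k _ _ _ =>
          hME a ⟨j, hj⟩ l (i - 1) k hl (by omega)
      have h5 := hxu (Sum.inr (a, (⟨j, hj⟩, ⟨l, by omega⟩)))
      simp only [Sum.elim_inr] at h5
      rw [h5, Int.cast_zero] at h4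
      unfold LF
      rw [← hn] at h4
      rcases mul_eq_zero.1 h4 with h6 | h6
      · refine absurd h6 (mul_ne_zero ?_ ?_)
        · exact_mod_cast (by omega : q ≠ 0)
        · exact_mod_cast hD20.ne'
      · exact h6
    · intro t ht1 ht2 β hβ
      rw [← hn] at ht2 ⊢
      rw [← hB] at hβ
      obtain ⟨t', ht'⟩ := Int.eq_ofNat_of_zero_le (show 0 ≤ t - 1 by omega)
      have ht'' : t = (t' : ℤ) + 1 := by omega
      have ht3 : t' < r * n := by
        have : (t' : ℤ) < r * n := by omega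
        exact_mod_cast this
      have hN : ∀ k : ℕ, k < n → t + k ≤ (((r + 1) * n : ℕ) : ℤ) := by
        intro k hk
        push_cast
        have : (k : ℤ) < n := by exact_mod_cast hk
        nlinarith
      have h4 := functional x (fun i k => ph β t i k) ((Dl ((r + 1) * n) 1 : ℚ) ^ e)
        (fun i k => MB ((r + 1) * n) t β i k) fun i k hi1 hi2 hk =>
          (hMB ((r + 1) * n) t β i k (hN k (by omega)) (by omega)).1
      have h5 := hxf (⟨t', ht3⟩, ⟨β, hβ⟩)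
      simp only at h5
      rw [← ht''] at h5
      rw [← hn, ← ev_eq] at h4
      have h6 : ∑ i, 2 ^ (W * n) * cf (fun i k => MB ((r + 1) * n) t β i k) i * x i =
          2 ^ (W * n) * ∑ i, cf (fun i k => MB ((r + 1) * n) t β i k) i * x i := by
        rw [Finset.mul_sum]
        exact Finset.sum_congr rfl fun _ _ => by ring
      rw [h6] at h5
      have h7 : |(2 : ℚ) ^ (W * n) * ((Dl ((r + 1) * n) 1 : ℚ) ^ e * ev h n (cx x) β t)| <
          (Dl ((r + 1) * n) 1 : ℚ) ^ e := by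
        rw [h4]
        exact_mod_cast h5
      have h8 : (0 : ℚ) < (Dl ((r + 1) * n) 1 : ℚ) ^ e := by
        have := hDl ((r + 1) * n)
        positivity
      rw [abs_mul, abs_mul, abs_of_pos h8, abs_of_pos (by positivity : (0 : ℚ) < 2 ^ (W * n))] at h7
      rw [lt_div_iff₀ (by positivity)]
      have h9 : (Dl ((r + 1) * n) 1 : ℚ) ^ e * (|ev h n (cx x) β t| * 2 ^ (W * n)) <
          (Dl ((r + 1) * n) 1 : ℚ) ^ e * 1 := by
        rw [mul_one]
        calc _ = 2 ^ (W * n) * ((Dl ((r + 1) * n) 1 : ℚ) ^ e * |ev h n (cx x) β t|) := by ring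
          _ < _ := h7
      exact lt_of_mul_lt_mul_left h9 h8.le
    · intro v hv β hβ
      rw [← hn] at hv ⊢
      rw [← hB] at hβ
      have h4 := functional x (fun i k => ph β (-(v : ℤ)) i k) ((Dl n 1 : ℚ) ^ e)
        (fun i k => MB n (-(v : ℤ)) β i k) fun i k hi1 hi2 hk =>
          (hMB n (-(v : ℤ)) β i k (by omega) (by omega)).1
      obtain ⟨m, hm⟩ := hxg (⟨v, hv⟩, ⟨β, hβ⟩)
      simp only at hm
      rw [hm, ← hn] at h4
      refine ⟨m, ?_⟩
      rw [ev_eq]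
      have h5 : ((Dl n 1 : ℚ) ^ e) ≠ 0 := pow_ne_zero _ (by exact_mod_cast (hDl _).ne')
      apply mul_left_cancel₀ h5
      rw [h4]
      push_cast
      ring
    · refine ⟨j0, j0.2, l0, ?_, ?_⟩
      · have := l0.2
        rw [← hn]
        omega
      · rw [t_spl, LF_ce]
        subst hn
        exact hx0
  · -- the size of the equations
    rintro (l | ⟨a, j, l⟩)
    · simp only [Sum.elim_inl]
      have hl := l.2
      refine (cf_le (fun i k => MA l (i - 1) k) (D * 8 ^ ((w + 1) * n)) fun k hk => ?_).trans ?_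
      · have h4 : ∑ i ∈ Icc 1 (2 * h), |((MA l (i - 1) k : ℤ) : ℚ)| ≤
            ((D * 8 ^ ((w + 1) * n) : ℕ) : ℚ) := by
          rw [sum_Icc1]
          have h5 : ∀ a ∈ range (2 * h), |((MA l (a + 1 - 1) k : ℤ) : ℚ)| =
              (D : ℚ) * |PowerSeries.coeff a (TS (-(k : ℚ)) (gq n l))| := by
            intro a ha
            rw [mem_range] at ha
            rw [Nat.add_sub_cancel, ← hMA l a k (by omega) (by omega), abs_mul, Nat.abs_cast]
          rw [sum_congr rfl h5, ← mul_sum]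
          have h6 := h3 n l k (2 * h) (by omega) (by omega)
          calc (D : ℚ) * ∑ a ∈ range (2 * h), |PowerSeries.coeff a (TS (-(k : ℚ)) (gq n l))|
              ≤ (D : ℚ) * 8 ^ ((l : ℕ) + n) := mul_le_mul_of_nonneg_left h6 (by positivity)
            _ ≤ (D : ℚ) * 8 ^ ((w + 1) * n) := by
                refine mul_le_mul_of_nonneg_left (pow_le_pow_right₀ (by norm_num) ?_) (by positivity)
                have : (w + 1) * n = w * n + n := by ring
                omega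
            _ = ((D * 8 ^ ((w + 1) * n) : ℕ) : ℚ) := by push_cast; ring
        exact_mod_cast h4
      · have h4 : 2 * (ν * (D * 8 ^ ((w + 1) * n))) ≤ V1 := by
          rw [hV1]
          exact Nat.mul_le_mul_left _ (Nat.mul_le_mul_right _ (by omega))
        exact_mod_cast h4
    · simp only [Sum.elim_inr]
      have hl := l.2
      refine (cf_le (fun i k => ME a j l (i - 1) k) (Zb * D2 * 8 ^ ((γ + 1) * n))
        fun k hk => ?_).trans ?_
      · have h4 : ∑ i ∈ Icc 1 (2 * h), |((ME a j l (i - 1) k : ℤ) : ℚ)| ≤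
            ((Zb * D2 * 8 ^ ((γ + 1) * n) : ℕ) : ℚ) := by
          rw [sum_Icc1]
          have h5 : ∀ i ∈ range (2 * h), |((ME a j l (i + 1 - 1) k : ℤ) : ℚ)| =
              ((q : ℚ) * (D2 : ℚ)) * |PowerSeries.coeff i (TS (-(k : ℚ)) (gq n l) *
                eh (za a) h (b + 2 * j))| := by
            intro i hi
            rw [mem_range] at hi
            rw [Nat.add_sub_cancel, ← hME a j l i k (by omega) hi, abs_mul, abs_mul, Nat.abs_cast,
              Nat.abs_cast]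
          rw [sum_congr rfl h5, ← mul_sum]
          have h6 := h3 n l k (2 * h) (by omega) (by omega)
          have h7 : SML.An (2 * h) (TS (-(k : ℚ)) (gq n l)) ≤ 8 ^ ((γ + 1) * n) := by
            refine h6.trans (pow_le_pow_right₀ (by norm_num) ?_)
            have : (γ + 1) * n = γ * n + n := by ring
            omega
          have h8 := hZ a j j.2
          rw [← eh_An] at h8
          calc ((q : ℚ) * (D2 : ℚ)) * ∑ i ∈ range (2 * h), |PowerSeries.coeff i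
                (TS (-(k : ℚ)) (gq n l) * eh (za a) h (b + 2 * j))|
              ≤ ((q : ℚ) * (D2 : ℚ)) * (SML.An (2 * h) (TS (-(k : ℚ)) (gq n l)) *
                  SML.An (2 * h) (eh (za a) h (b + 2 * j))) :=
                mul_le_mul_of_nonneg_left (SML.An_mul _ _ _) (by positivity)
            _ = (D2 : ℚ) * SML.An (2 * h) (TS (-(k : ℚ)) (gq n l)) *
                  ((q : ℚ) * SML.An (2 * h) (eh (za a) h (b + 2 * j))) := by ring
            _ ≤ (D2 : ℚ) * 8 ^ ((γ + 1) * n) * (Zb : ℚ) := by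
                refine mul_le_mul (mul_le_mul_of_nonneg_left h7 (by positivity)) h8 ?_ (by positivity)
                exact mul_nonneg (by positivity) (SML.An_nonneg _ _)
            _ = ((Zb * D2 * 8 ^ ((γ + 1) * n) : ℕ) : ℚ) := by push_cast; ring
        exact_mod_cast h4
      · have h4 : 2 * (ν * (Zb * D2 * 8 ^ ((γ + 1) * n))) ≤ V3 := by
          rw [hV3]
          exact Nat.mul_le_mul_left _ (Nat.mul_le_mul_right _ (by omega))
        exact_mod_cast h4
  · rintro (l | p)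
    · simp only [Sum.elim_inl]
      rw [hV1]
      have : 0 < n * (D * 8 ^ ((w + 1) * n)) := Nat.mul_pos (by omega) (Nat.mul_pos hD0 (by positivity))
      omega
    · simp only [Sum.elim_inr]
      rw [hV3]
      have : 0 < n * (Zb * D2 * 8 ^ ((γ + 1) * n)) :=
        Nat.mul_pos (by omega) (Nat.mul_pos (Nat.mul_pos (by omega) hD20) (by positivity))
      omega
  · rintro ⟨t, β⟩
    simp only
    have ht := t.2
    have hβ := β.2
    have hN : ∀ k : ℕ, k < n → (((t : ℕ) : ℤ) + 1) + k ≤ (((r + 1) * n : ℕ) : ℤ) := by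
      intro k hk
      have h5 : (t : ℕ) + 1 + k ≤ (r + 1) * n := by
        have : (r + 1) * n = r * n + n := by ring
        omega
      exact_mod_cast h5
    have h6 : ∀ (Φ : ℕ → ℕ → ℤ), ∑ i : Fin (2 * h) × Fin ν, |2 ^ (W * n) * cf Φ i| =
        2 ^ (W * n) * ∑ i : Fin (2 * h) × Fin ν, |cf Φ i| := by
      intro Φ
      rw [Finset.mul_sum]
      refine Finset.sum_congr rfl fun i _ => ?_
      rw [abs_mul, abs_of_pos (by positivity : (0 : ℤ) < 2 ^ (W * n))]
    rw [h6]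
    refine (mul_le_mul_of_nonneg_left (cf_le (fun i k => MB ((r + 1) * n) (((t : ℕ) : ℤ) + 1) β i k)
      (2 * h * (2 ^ e * Dl ((r + 1) * n) 1 ^ e)) fun k hk => ?_) (by positivity)).trans ?_
    · have h5 : ∀ i ∈ Icc 1 (2 * h), |MB ((r + 1) * n) (((t : ℕ) : ℤ) + 1) β i k| ≤
          ((2 ^ e * Dl ((r + 1) * n) 1 ^ e : ℕ) : ℤ) := by
        intro i hi
        rw [mem_Icc] at hi
        have h6 := (hMB ((r + 1) * n) (((t : ℕ) : ℤ) + 1) β i k (hN k (by omega)) (by omega)).2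
        push_cast
        exact h6
      refine (sum_le_sum h5).trans (le_of_eq ?_)
      rw [sum_const, Nat.card_Icc, nsmul_eq_mul, Nat.add_sub_cancel]
      push_cast
      ring
    · have h4 : 2 ^ (W * n) * (2 * (ν * (2 * h * (2 ^ e * Dl ((r + 1) * n) 1 ^ e)))) ≤
          V2 * Dl ((r + 1) * n) 1 ^ e := by
        rw [hV2]
        calc 2 ^ (W * n) * (2 * (ν * (2 * h * (2 ^ e * Dl ((r + 1) * n) 1 ^ e))))
            ≤ 2 ^ (W * n) * (2 * (n * (2 * h * (2 ^ e * Dl ((r + 1) * n) 1 ^ e)))) :=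
              Nat.mul_le_mul_left _ (Nat.mul_le_mul_left _ (Nat.mul_le_mul_right _ (by omega)))
          _ = 2 ^ (W * n) * (2 * (n * (2 * h * 2 ^ e))) * Dl ((r + 1) * n) 1 ^ e := by ring
      exact_mod_cast h4
  · intro j
    exact Nat.pow_pos (hDl _)
  · intro j
    exact Nat.pow_pos (hDl _)
  · -- the independence
    intro y t hz
    have h4 := indep (h := h) (ν := ν) (A := A) (M := M) (b := b) (γ := γ) (w := w) z0 za hb hh hγw
      hm hineq (fun j l => y (j, ⟨l, by rw [hn]; exact l.2⟩))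
      (fun l => t (Sum.inl ⟨l, by rw [hn]; exact l.2⟩) * D)
      (fun a j l => t (Sum.inr (a, (j, ⟨l, by rw [hn]; exact l.2⟩))) * ((q : ℚ) * D2))
    subst hn
    have h5 := h4 (by
      intro p
      rw [← hz p]
      rw [Fintype.sum_prod_type, Fintype.sum_sum_type, Fintype.sum_prod_type]
      congr 1
      congr 1
      · refine Finset.sum_congr rfl fun l _ => ?_
        simp only [Sum.elim_inl]
        have hl := l.2
        rw [cf_ce (fun k => TS (-(k : ℚ)) (gq (2 * ν + 1) l)) (D : ℚ) (fun i k => MA l (i - 1) k)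
          (fun i k h5 h6 h7 => hMA l (i - 1) k (by omega) (by omega)) p]
        ring
      · refine Finset.sum_congr rfl fun a _ => ?_
        rw [Fintype.sum_prod_type]
        refine Finset.sum_congr rfl fun j _ => ?_
        refine Finset.sum_congr rfl fun l _ => ?_
        simp only [Sum.elim_inr]
        have hl := l.2
        rw [cf_ce (fun k => TS (-(k : ℚ)) (gq (2 * ν + 1) l) * eh (za a) h (b + 2 * j))
          ((q : ℚ) * (D2 : ℚ)) (fun i k => ME a j l (i - 1) k)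
          (fun i k h5 h6 h7 => hME a j l (i - 1) k (by omega) (by omega)) p]
        ring)
    funext p
    have h6 := congrFun (congrFun h5 p.1) p.2
    exact h6
  · rw [Fintype.prod_sum_type]
    simp only [Sum.elim_inl, Sum.elim_inr, prod_const, card_univ, Fintype.card_prod,
      Fintype.card_fin]
    unfold DgNum at hnum
    rw [← hn, ← hB, ← he, ← hD, ← hD2, ← hV1, ← hV3, ← hV2] at hnum
    exact hnum

end

end Pool.Agent.H494.DZ
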