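import Pool.Graph.R_pool_sql_team_seeded_63374d34.N797.PW.J_NUM
import Pool.Graph.R_pool_sql_team_seeded_63374d34.N797.PW.J_GCD
import Pool.Agent.H494.DZ.Sg

/-!
# The numerical conditions hold for large `ν`
-/

set_option autoImplicit false

open Polynomial Pool.Agent.H337R2 Pool.Agent.W165.OZ Pool.Agent.Y926.LZ Pool.Agent.Y926.TW Pool.Agent.N797.PW Filter

namespace Pool.Agent.H494.DZ

noncomputable section

theorem tend_odd : Tendsto (fun ν : ℕ => 2 * ν + 1) atTop atTop :=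
  tendsto_atTop_mono (fun ν => by show ν ≤ _; omega) tendsto_id

/-- **NUM** for the pigeonhole principle -/
theorem dnum {h R B w γ A M Zb W x J1 J2 : ℕ} (hh : 1 ≤ h) (hM : 1 ≤ M)
    (hJ1 : 2 * h ≤ 2 ^ J1 * w) (hJ2 : 2 * h ≤ 2 ^ J2 * γ)
    (hK : (w + 1) * (5 * w + 8 * J1 * (w + 1) + 5) + A * M * ((γ + 1) * (5 * γ + 8 * J2 * (γ + 1) + 5)) +
      2 ^ R * B * (x + W + 1) + 4 * B * (2 * h + B) ≤ x * (M * γ)) :
    ∀ᶠ ν in atTop, DgNum h ν (2 ^ R) B w γ A M Zb W (2 ^ (x * (2 * ν + 1))) := by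
  have hG1 := t_gcd (2 * h) (2 * w + 2) w J1 hJ1
  have hG2 := t_gcd (2 * h) (2 * γ + 2) γ J2 hJ2
  filter_upwards [tend_odd.eventually num_Dl_le, tend_odd.eventually hG1, tend_odd.eventually hG2,
    tend_odd.eventually (num_lin 2), tend_odd.eventually (num_lin (2 * Zb)),
    tend_odd.eventually (num_lin (8 * h * 2 ^ (2 * h + B)))] with ν e1 e2 e3 e4 e5 e6
  unfold DgNum
  obtain ⟨n, hn⟩ : ∃ n, n = 2 * ν + 1 := ⟨_, rfl⟩
  rw [← hn] at e1 e2 e3 e4 e5 e6 ⊢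
  have hn1 : 1 ≤ n := by omega
  have e2' : DW n (2 * h) (2 * w + 2) ≤ 2 ^ ((2 * w + 4 * J1 * (2 * w + 2) + 1) * n) := by
    exact_mod_cast e2
  have e3' : DW n (2 * h) (2 * γ + 2) ≤ 2 ^ ((2 * γ + 4 * J2 * (2 * γ + 2) + 1) * n) := by
    exact_mod_cast e3
  have f1 : 2 * (n * (DW n (2 * h) (2 * w + 2) * 8 ^ ((w + 1) * n))) ≤
      2 ^ ((5 * w + 8 * J1 * (w + 1) + 5) * n) := by
    calc 2 * (n * (DW n (2 * h) (2 * w + 2) * 8 ^ ((w + 1) * n)))
        ≤ 2 * (n * (2 ^ ((2 * w + 4 * J1 * (2 * w + 2) + 1) * n) * 8 ^ ((w + 1) * n))) := by gcongr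
      _ = (2 * n) * 2 ^ ((2 * w + 4 * J1 * (2 * w + 2) + 1) * n + 3 * ((w + 1) * n)) := by
          rw [show (8 : ℕ) = 2 ^ 3 by norm_num, ← pow_mul, pow_add]
          ring
      _ ≤ 2 ^ n * 2 ^ ((2 * w + 4 * J1 * (2 * w + 2) + 1) * n + 3 * ((w + 1) * n)) :=
          Nat.mul_le_mul_right _ e4
      _ = _ := by
          rw [← pow_add]
          congr 1
          ring
  have f2 : 2 * (n * (Zb * DW n (2 * h) (2 * γ + 2) * 8 ^ ((γ + 1) * n))) ≤
      2 ^ ((5 * γ + 8 * J2 * (γ + 1) + 5) * n) := by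
    calc 2 * (n * (Zb * DW n (2 * h) (2 * γ + 2) * 8 ^ ((γ + 1) * n)))
        ≤ 2 * (n * (Zb * 2 ^ ((2 * γ + 4 * J2 * (2 * γ + 2) + 1) * n) * 8 ^ ((γ + 1) * n))) := by gcongr
      _ = (2 * Zb * n) * 2 ^ ((2 * γ + 4 * J2 * (2 * γ + 2) + 1) * n + 3 * ((γ + 1) * n)) := by
          rw [show (8 : ℕ) = 2 ^ 3 by norm_num, ← pow_mul, pow_add]
          ring
      _ ≤ 2 ^ n * 2 ^ ((2 * γ + 4 * J2 * (2 * γ + 2) + 1) * n + 3 * ((γ + 1) * n)) :=
          Nat.mul_le_mul_right _ e5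
      _ = _ := by
          rw [← pow_add]
          congr 1
          ring
  have f3 : 2 ^ (x * n) * (2 ^ (W * n) * (2 * (n * (2 * h * 2 ^ (2 * h + B))))) + 1 ≤
      2 ^ ((x + W + 1) * n) := by
    have h1 := num_add_one (le_refl (2 ^ (x * n) * (2 ^ (W * n) * (2 * (n * (2 * h * 2 ^ (2 * h + B)))))))
      (Nat.one_le_iff_ne_zero.2 (by positivity))
    refine h1.trans ?_
    calc 2 * (2 ^ (x * n) * (2 ^ (W * n) * (2 * (n * (2 * h * 2 ^ (2 * h + B))))))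
        = (8 * h * 2 ^ (2 * h + B) * n) * 2 ^ (x * n + W * n) := by
          rw [pow_add 2 (x * n) (W * n)]
          ring
      _ ≤ 2 ^ n * 2 ^ (x * n + W * n) := Nat.mul_le_mul_right _ e6
      _ = _ := by
          rw [← pow_add]
          congr 1
          ring
  have g1 : (2 * (n * (DW n (2 * h) (2 * w + 2) * 8 ^ ((w + 1) * n)))) ^ (w * n + 1) ≤
      2 ^ ((w + 1) * (5 * w + 8 * J1 * (w + 1) + 5) * (n * n)) := by
    calc _ ≤ (2 ^ ((5 * w + 8 * J1 * (w + 1) + 5) * n)) ^ (w * n + 1) := Nat.pow_le_pow_left f1 _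
      _ ≤ (2 ^ ((5 * w + 8 * J1 * (w + 1) + 5) * n)) ^ ((w + 1) * n) :=
          Nat.pow_le_pow_right (by positivity) (by nlinarith)
      _ = _ := by
          rw [← pow_mul]
          congr 1
          ring
  have g2 : (2 * (n * (Zb * DW n (2 * h) (2 * γ + 2) * 8 ^ ((γ + 1) * n)))) ^ (A * (M * (γ * n + 1))) ≤
      2 ^ (A * M * ((γ + 1) * (5 * γ + 8 * J2 * (γ + 1) + 5)) * (n * n)) := by
    calc _ ≤ (2 ^ ((5 * γ + 8 * J2 * (γ + 1) + 5) * n)) ^ (A * (M * (γ * n + 1))) :=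
          Nat.pow_le_pow_left f2 _
      _ ≤ (2 ^ ((5 * γ + 8 * J2 * (γ + 1) + 5) * n)) ^ (A * (M * ((γ + 1) * n))) :=
          Nat.pow_le_pow_right (by positivity)
            (Nat.mul_le_mul_left _ (Nat.mul_le_mul_left _ (by nlinarith)))
      _ = _ := by
          rw [← pow_mul]
          congr 1
          ring
  have g3 : (2 ^ (x * n) * (2 ^ (W * n) * (2 * (n * (2 * h * 2 ^ (2 * h + B))))) + 1) ^
      (2 ^ R * n * B) ≤ 2 ^ (2 ^ R * B * (x + W + 1) * (n * n)) := by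
    calc _ ≤ (2 ^ ((x + W + 1) * n)) ^ (2 ^ R * n * B) := Nat.pow_le_pow_left f3 _
      _ = _ := by
          rw [← pow_mul]
          congr 1
          ring
  have g4 : (Dl n 1 ^ (2 * h + B)) ^ (n * B) ≤ 2 ^ (4 * B * (2 * h + B) * (n * n)) := by
    calc _ ≤ ((2 ^ (4 * n)) ^ (2 * h + B)) ^ (n * B) :=
          Nat.pow_le_pow_left (Nat.pow_le_pow_left e1 _) _
      _ = _ := by
          rw [← pow_mul, ← pow_mul]
          congr 1
          ring
  have h1 := Nat.mul_le_mul (Nat.mul_le_mul (Nat.mul_le_mul g1 g2) g3) g4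
  rw [← pow_add, ← pow_add, ← pow_add, ← add_mul, ← add_mul, ← add_mul] at h1
  refine lt_of_le_of_lt h1 ?_
  have h2 := Nat.mul_le_mul_right (n * n) hK
  have hM' : 0 < M * (γ * n + 1) := Nat.mul_pos (by omega) (by omega)
  calc 2 ^ (((w + 1) * (5 * w + 8 * J1 * (w + 1) + 5) +
        A * M * ((γ + 1) * (5 * γ + 8 * J2 * (γ + 1) + 5)) +
        2 ^ R * B * (x + W + 1) + 4 * B * (2 * h + B)) * (n * n))
      ≤ 2 ^ (x * n * (M * (γ * n + 1))) := by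
        refine Nat.pow_le_pow_right (by norm_num) (h2.trans ?_)
        calc x * (M * γ) * (n * n) = x * n * (M * (γ * n)) := by ring
          _ ≤ x * n * (M * (γ * n + 1)) :=
            Nat.mul_le_mul_left _ (Nat.mul_le_mul_left _ (Nat.le_succ _))
    _ = (2 ^ (x * n)) ^ (M * (γ * n + 1)) := by rw [← pow_mul]
    _ < (2 ^ (x * n) + 1) ^ (M * (γ * n + 1)) :=
        Nat.pow_lt_pow_left (Nat.lt_succ_self _) hM'.ne'

/-- the zero estimate is applicable for large `ν` -/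
theorem dzero {A M b γ w h : ℕ} (hz : 2 * (γ * ((A + 1) * M)) + 2 * w < h) :
    ∀ᶠ ν in atTop, (A + 1) * M < ν ∧
      (A + 1) * M * (2 * (γ * (2 * ν + 1))) + 2 * (w * (2 * ν + 1)) +
      (A + 1) * M * (2 * (b + 2 * M)) < 2 * h * (ν - (A + 1) * M) := by
  obtain ⟨m, hm⟩ : ∃ m, m = (A + 1) * M := ⟨_, rfl⟩
  rw [← hm] at hz ⊢
  filter_upwards [eventually_gt_atTop (m + (2 * h * m + m * (2 * γ) + 2 * w + m * (2 * (b + 2 * M))))]
    with ν hν
  refine ⟨by omega, ?_⟩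
  obtain ⟨k, hk⟩ : ∃ k, ν = k + m := ⟨ν - m, by omega⟩
  have e1 : ν - m = k := by omega
  rw [e1, hk]
  rw [hk] at hν
  have h1 := Nat.mul_le_mul_right (2 * k) (Nat.succ_le_of_lt hz)
  have h2 : m * (2 * (γ * (2 * (k + m) + 1))) + 2 * (w * (2 * (k + m) + 1)) +
      m * (2 * (b + 2 * M)) = (2 * (γ * m) + 2 * w) * (2 * k) + ((2 * (γ * m) + 2 * w) * (2 * m) +
        (m * (2 * γ) + 2 * w + m * (2 * (b + 2 * M)))) := by ring
  rw [h2]
  have h3 : (2 * (γ * m) + 2 * w) * (2 * m) ≤ h * (2 * m) := Nat.mul_le_mul_right _ hz.le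
  have h4 : (2 * (γ * m) + 2 * w).succ * (2 * k) = (2 * (γ * m) + 2 * w) * (2 * k) + 2 * k := by
    rw [Nat.succ_mul]
  have h5 : h * (2 * k) = 2 * h * k := by ring
  have h6 : h * (2 * m) = 2 * h * m := by ring
  omega

/-- polynomial growth against exponential growth -/
theorem cube_le (C : ℕ) : ∀ᶠ n : ℕ in atTop, C * n ^ 3 ≤ 2 ^ n := by
  have h1 : Tendsto (fun n : ℕ => n / 3) atTop atTop := Nat.tendsto_div_const_atTop (by norm_num)
  filter_upwards [h1.eventually (num_lin (5 * (C + 1))), eventually_ge_atTop 3] with n hn hn3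
  have h2 : n ≤ 5 * (n / 3) := by omega
  have h3 : (C + 1) * n ≤ 2 ^ (n / 3) := by
    calc (C + 1) * n ≤ (C + 1) * (5 * (n / 3)) := Nat.mul_le_mul_left _ h2
      _ = 5 * (C + 1) * (n / 3) := by ring
      _ ≤ _ := hn
  calc C * n ^ 3 ≤ (C + 1) ^ 3 * n ^ 3 := by
        refine Nat.mul_le_mul_right _ ?_
        calc C ≤ (C + 1) ^ 1 := by rw [pow_one]; omega
          _ ≤ (C + 1) ^ 3 := Nat.pow_le_pow_right (by omega) (by norm_num)
    _ = ((C + 1) * n) ^ 3 := by ring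
    _ ≤ (2 ^ (n / 3)) ^ 3 := Nat.pow_le_pow_left h3 3
    _ = 2 ^ (n / 3 * 3) := by rw [← pow_mul]
    _ ≤ 2 ^ n := Nat.pow_le_pow_right (by norm_num) (Nat.div_mul_le_self n 3)

end

end Pool.Agent.H494.DZ
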