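import Pool.Agent.H494.DZ.Num

/-!
# The forms multiplied by the denominator are less than one
-/

set_option autoImplicit false

open Polynomial Pool.Agent.H337R2 Pool.Agent.W165.OZ Pool.Agent.Y926.LZ Pool.Agent.Y926.TW Pool.Agent.N797.PW Filter

namespace Pool.Agent.H494.DZ

noncomputable section

theorem tiny {h R B w γ W x J2 q0 : ℕ} (hR : 1 ≤ R)
    (hJ2 : 2 * h + 2 * B ≤ 2 ^ J2 * γ)
    (hsm : x + (2 * γ + 4 * J2 * (2 * γ + 2) + 1) + 3 * (γ + 1) + 1 ≤ 2 * (w - γ) * (R - 1))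
    (hW : (2 * γ + 4 * J2 * (2 * γ + 2) + 1) + (γ + 1) * (2 * R + 6) + 1 ≤ W) :
    ∀ᶠ ν in atTop, ∀ β < B, ∀ l ≤ γ * (2 * ν + 1),
      (q0 : ℝ) * (DW (2 * ν + 1) (2 * h + 2 * B) (2 * γ + 2) : ℝ) *
      (2 * (((2 ^ (x * (2 * ν + 1)) : ℕ) : ℝ) * (2 * (ν : ℝ) + 1) * 8 ^ (l + (2 * ν + 1)) *
        (2 ^ (β + 1) * ((2 ^ R : ℕ) : ℝ) ^ 2 *
        (2 / ((2 ^ R : ℕ) : ℝ)) ^ (2 * (w * (2 * ν + 1)) + 2 - 2 * l) * (2 * (ν : ℝ) + 1) ^ 2) +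
        (54 * ((2 ^ R : ℕ) : ℝ) ^ 2) ^ (l + (2 * ν + 1)) / 2 ^ (W * (2 * ν + 1)) *
          (((2 ^ R : ℕ) : ℝ) * (2 * (ν : ℝ) + 1)) ^ 2)) < 1 := by
  have hG := t_gcd (2 * h + 2 * B) (2 * γ + 2) γ J2 hJ2
  filter_upwards [tend_odd.eventually hG,
    tend_odd.eventually (cube_le (8 * q0 * (2 ^ (B + 1) * 4 ^ R)))] with ν e1 e2
  intro β hβ l hl
  obtain ⟨n, hn⟩ : ∃ n, n = 2 * ν + 1 := ⟨_, rfl⟩
  have hnn : (2 * (ν : ℝ) + 1) = (n : ℝ) := by rw [hn]; push_cast; ring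
  rw [hnn]
  rw [← hn] at e1 e2 hl ⊢
  have hn1 : 1 ≤ n := by omega
  have hn1' : (1 : ℝ) ≤ n := by exact_mod_cast hn1
  obtain ⟨Δ, hΔ⟩ : ∃ Δ, Δ = 2 * γ + 4 * J2 * (2 * γ + 2) + 1 := ⟨_, rfl⟩
  rw [← hΔ] at e1 hsm hW
  obtain ⟨R', rfl⟩ : ∃ R', R = R' + 1 := ⟨R - 1, by omega⟩
  rw [Nat.add_sub_cancel] at hsm
  have hq0 : (0 : ℝ) ≤ q0 := by positivity
  have hD0 : (0 : ℝ) ≤ (DW n (2 * h + 2 * B) (2 * γ + 2) : ℝ) := by positivity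
  have e2' : 8 * (q0 : ℝ) * (2 ^ (B + 1) * 4 ^ (R' + 1)) * (n : ℝ) ^ 3 ≤ 2 ^ n := by exact_mod_cast e2
  push_cast
  -- the first term
  have f1 : (2 / (2 : ℝ) ^ (R' + 1)) = (1 / 2) ^ R' := by
    rw [pow_succ, one_div, inv_pow]
    field_simp
  rw [f1]
  have f2 : ((1 / 2 : ℝ) ^ R') ^ (2 * (w * n) + 2 - 2 * l) ≤ (1 / 2) ^ (2 * (w - γ) * R' * n) := by
    rw [← pow_mul]
    refine pow_le_pow_of_le_one (by norm_num) (by norm_num) ?_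
    have h1 : 2 * (w - γ) * n ≤ 2 * (w * n) + 2 - 2 * l := by
      have h2 : (w - γ) * n = w * n - γ * n := Nat.sub_mul _ _ _
      have h3 : 2 * (w - γ) * n = 2 * ((w - γ) * n) := by ring
      omega
    calc 2 * (w - γ) * R' * n = R' * (2 * (w - γ) * n) := by ring
      _ ≤ _ := Nat.mul_le_mul_left _ h1
  have f3 : (8 : ℝ) ^ (l + n) ≤ 2 ^ (3 * (γ + 1) * n) := by
    rw [show (8 : ℝ) = 2 ^ 3 by norm_num, ← pow_mul]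
    refine pow_le_pow_right₀ (by norm_num) ?_
    have : 3 * (γ + 1) * n = 3 * (γ * n) + 3 * n := by ring
    omega
  have f4 : (2 : ℝ) ^ (β + 1) ≤ 2 ^ (B + 1) := pow_le_pow_right₀ (by norm_num) (by omega)
  have f5 : ((2 : ℝ) ^ (R' + 1)) ^ 2 = 4 ^ (R' + 1) := by
    rw [← pow_mul, mul_comm, pow_mul]
    norm_num
  have t1 : (q0 : ℝ) * (DW n (2 * h + 2 * B) (2 * γ + 2) : ℝ) *
      (2 * (2 ^ (x * n) * (n : ℝ) * 8 ^ (l + n) * (2 ^ (β + 1) * (2 ^ (R' + 1)) ^ 2 *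
        ((1 / 2 : ℝ) ^ R') ^ (2 * (w * n) + 2 - 2 * l) * (n : ℝ) ^ 2))) ≤ 1 / 4 := by
    rw [f5]
    calc (q0 : ℝ) * (DW n (2 * h + 2 * B) (2 * γ + 2) : ℝ) *
      (2 * (2 ^ (x * n) * (n : ℝ) * 8 ^ (l + n) * (2 ^ (β + 1) * 4 ^ (R' + 1) *
        ((1 / 2 : ℝ) ^ R') ^ (2 * (w * n) + 2 - 2 * l) * (n : ℝ) ^ 2)))
        ≤ (q0 : ℝ) * 2 ^ (Δ * n) * (2 * (2 ^ (x * n) * (n : ℝ) * 2 ^ (3 * (γ + 1) * n) *
          (2 ^ (B + 1) * 4 ^ (R' + 1) * (1 / 2) ^ (2 * (w - γ) * R' * n) * (n : ℝ) ^ 2))) := by gcongr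
      _ = (8 * (q0 : ℝ) * (2 ^ (B + 1) * 4 ^ (R' + 1)) * (n : ℝ) ^ 3) *
          (2 ^ (Δ * n + x * n + 3 * (γ + 1) * n) * (1 / 2) ^ (2 * (w - γ) * R' * n)) / 4 := by
          rw [pow_add 2 (Δ * n + x * n), pow_add 2 (Δ * n)]
          ring
      _ ≤ 2 ^ n * (2 ^ (Δ * n + x * n + 3 * (γ + 1) * n) * (1 / 2) ^ (2 * (w - γ) * R' * n)) / 4 := by
          gcongr
      _ = (2 ^ ((x + Δ + 3 * (γ + 1) + 1) * n) * (1 / 2) ^ (2 * (w - γ) * R' * n)) / 4 := by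
          rw [← mul_assoc, ← pow_add]
          congr 3
          ring
      _ ≤ (2 ^ (2 * (w - γ) * R' * n) * (1 / 2) ^ (2 * (w - γ) * R' * n)) / 4 := by
          gcongr
          · norm_num
      _ = 1 / 4 := by
          rw [← mul_pow]
          norm_num
  -- the second term
  have g1 : (54 * ((2 : ℝ) ^ (R' + 1)) ^ 2) ^ (l + n) ≤ 2 ^ ((γ + 1) * (2 * (R' + 1) + 6) * n) := by
    have h1 : 54 * ((2 : ℝ) ^ (R' + 1)) ^ 2 ≤ 2 ^ (2 * (R' + 1) + 6) := by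
      rw [pow_add 2 (2 * (R' + 1)) 6, ← pow_mul, mul_comm (R' + 1) 2]
      have : (0 : ℝ) < 2 ^ (2 * (R' + 1)) := by positivity
      linarith
    calc (54 * ((2 : ℝ) ^ (R' + 1)) ^ 2) ^ (l + n) ≤ (2 ^ (2 * (R' + 1) + 6)) ^ (l + n) :=
          pow_le_pow_left₀ (by positivity) h1 _
      _ = 2 ^ ((2 * (R' + 1) + 6) * (l + n)) := by rw [← pow_mul]
      _ ≤ _ := by
          refine pow_le_pow_right₀ (by norm_num) ?_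
          calc (2 * (R' + 1) + 6) * (l + n) ≤ (2 * (R' + 1) + 6) * (γ * n + n) :=
                Nat.mul_le_mul_left _ (by omega)
            _ = _ := by ring
  have t2 : (q0 : ℝ) * (DW n (2 * h + 2 * B) (2 * γ + 2) : ℝ) *
      (2 * ((54 * ((2 : ℝ) ^ (R' + 1)) ^ 2) ^ (l + n) / 2 ^ (W * n) *
        (2 ^ (R' + 1) * (n : ℝ)) ^ 2)) ≤ 1 / 4 := by
    have h0 : (1 : ℝ) ≤ 2 ^ (B + 1) := one_le_pow₀ (by norm_num)
    calc (q0 : ℝ) * (DW n (2 * h + 2 * B) (2 * γ + 2) : ℝ) *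
      (2 * ((54 * ((2 : ℝ) ^ (R' + 1)) ^ 2) ^ (l + n) / 2 ^ (W * n) *
        (2 ^ (R' + 1) * (n : ℝ)) ^ 2))
        ≤ (q0 : ℝ) * 2 ^ (Δ * n) * (2 * (2 ^ ((γ + 1) * (2 * (R' + 1) + 6) * n) / 2 ^ (W * n) *
          (2 ^ (R' + 1) * (n : ℝ)) ^ 2)) := by gcongr
      _ = (8 * (q0 : ℝ) * (1 * 4 ^ (R' + 1)) * ((n : ℝ) ^ 2 * 1)) *
          (2 ^ (Δ * n + (γ + 1) * (2 * (R' + 1) + 6) * n) / 2 ^ (W * n)) / 4 := by
          rw [mul_pow, f5, pow_add 2 (Δ * n)]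
          ring
      _ ≤ (8 * (q0 : ℝ) * (2 ^ (B + 1) * 4 ^ (R' + 1)) * ((n : ℝ) ^ 2 * n)) *
          (2 ^ (Δ * n + (γ + 1) * (2 * (R' + 1) + 6) * n) / 2 ^ (W * n)) / 4 := by
          gcongr
      _ = (8 * (q0 : ℝ) * (2 ^ (B + 1) * 4 ^ (R' + 1)) * (n : ℝ) ^ 3) *
          (2 ^ (Δ * n + (γ + 1) * (2 * (R' + 1) + 6) * n) / 2 ^ (W * n)) / 4 := by ring
      _ ≤ 2 ^ n * (2 ^ (Δ * n + (γ + 1) * (2 * (R' + 1) + 6) * n) / 2 ^ (W * n)) / 4 := by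
          gcongr
      _ = (2 ^ ((Δ + (γ + 1) * (2 * (R' + 1) + 6) + 1) * n) / 2 ^ (W * n)) / 4 := by
          rw [← mul_div_assoc, ← pow_add]
          congr 3
          ring
      _ ≤ (2 ^ (W * n) / 2 ^ (W * n)) / 4 := by
          gcongr
          · norm_num
      _ = 1 / 4 := by
          rw [div_self (by positivity)]
  rw [mul_add, mul_add]
  linarith

end

end Pool.Agent.H494.DZ
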