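import Pool.Graph.R_seed8.Y926.TW.J_ZE
import Pool.Graph.R_seed8.Y926.TW.J_CAS
import Pool.Graph.R_pool_sql_team_seeded_63374d34.N797.PW.J_POLE
import Pool.Graph.R_pool_sql_team_seeded_63374d34.N797.PW.J_RCW
import Pool.Graph.R_pool_sql_team_seeded_63374d34.N797.PW.ZE

/-!
# The dual zero estimate

If a combination `∑_j g_j E_{β_j} + ∑_{a,j} g_{a,j} e_{a,β_j}` of the germs of the functions belonging to the zeta
values (the first ones with the rational part, the second ones without) agrees to a high order at all nodes with a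
polynomial of small degree, then all `g_j` vanish.
-/

set_option autoImplicit false

open Polynomial Pool.Agent.H337R2 Pool.Agent.W165.OZ Pool.Agent.Y926.LZ Pool.Agent.Y926.TW Pool.Agent.N797.PW

namespace Pool.Agent.H494.DZ

noncomputable section

theorem dze {A M b h ν γ w : ℕ} (z0 : ℕ → ℚ) (za : Fin A → ℕ → ℚ) (g : Fin M → ℚ[X])
    (gh : Fin A → Fin M → ℚ[X]) (p : ℚ[X]) (hb : Even b) (hh : 1 ≤ h)
    (hg : ∀ j, (g j).natDegree ≤ 2 * (γ * (2 * ν + 1)))
    (hgh : ∀ a j, (gh a j).natDegree ≤ 2 * (γ * (2 * ν + 1)))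
    (hp : p.natDegree ≤ 2 * (w * (2 * ν + 1))) (hγw : γ ≤ w)
    (hid : ∀ k < ν, (PowerSeries.X : PowerSeries ℚ) ^ (2 * h) ∣
      ∑ j, TS (-(k : ℚ)) (g j) * bs z0 (2 * ν + 1) h (b + 2 * j) 1 k +
        ∑ a, ∑ j, TS (-(k : ℚ)) (gh a j) * (bs (za a) (2 * ν + 1) h (b + 2 * j) 1 k -
          bs 0 (2 * ν + 1) h (b + 2 * j) 1 k) - TS (-(k : ℚ)) p)
    (hm : (A + 1) * M < ν)
    (hineq : (A + 1) * M * (2 * (γ * (2 * ν + 1))) + 2 * (w * (2 * ν + 1)) +
      (A + 1) * M * (2 * (b + 2 * M)) < 2 * h * (ν - (A + 1) * M)) :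
    ∀ j, g j = 0 := by
  classical
  obtain ⟨n, hn⟩ : ∃ n, n = 2 * ν + 1 := ⟨_, rfl⟩
  rw [← hn] at hg hgh hp hid hineq
  -- the span of all multipliers
  obtain ⟨G, hG⟩ : ∃ G : Fin M ⊕ (Fin A × Fin M) → ℚ[X], G = Sum.elim g (fun q => gh q.1 q.2) :=
    ⟨_, rfl⟩
  obtain ⟨U, hU⟩ : ∃ U : Submodule ℚ ℚ[X], U = Submodule.span ℚ (Set.range G) := ⟨_, rfl⟩
  have hUfin : FiniteDimensional ℚ U := by
    rw [hU]
    exact FiniteDimensional.span_of_finite ℚ (Set.finite_range G)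
  have hUcard : Module.finrank ℚ U ≤ (A + 1) * M := by
    rw [hU]
    refine (finrank_range_le_card (R := ℚ) G).trans (le_of_eq ?_)
    rw [Fintype.card_sum, Fintype.card_prod, Fintype.card_fin, Fintype.card_fin]
    ring
  have hUdeg : ∀ q ∈ U, q.natDegree ≤ 2 * (γ * n) := by
    intro q hq
    have h1 : U ≤ Polynomial.degreeLE ℚ ((2 * (γ * n) : ℕ) : WithBot ℕ) := by
      rw [hU, Submodule.span_le]
      rintro _ ⟨s, rfl⟩
      rw [SetLike.mem_coe, Polynomial.mem_degreeLE, ← Polynomial.natDegree_le_iff_degree_le, hG]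
      rcases s with j | ⟨a, j⟩
      · exact hg j
      · exact hgh a j
    have h2 := h1 hq
    rw [Polynomial.mem_degreeLE, ← Polynomial.natDegree_le_iff_degree_le] at h2
    exact h2
  obtain ⟨m, hmm⟩ : ∃ m, m = Module.finrank ℚ U := ⟨_, rfl⟩
  have e : Module.Basis (Fin m) ℚ U := by
    rw [hmm]
    exact Module.finBasis ℚ U
  rw [← hmm] at hUcard
  have hGm : ∀ s, G s ∈ U := by
    intro s
    rw [hU]
    exact Submodule.subset_span ⟨s, rfl⟩
  obtain ⟨κ, hκ⟩ : ∃ κ : Fin M ⊕ (Fin A × Fin M) → Fin m → ℚ,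
      ∀ s, G s = ∑ l, C (κ s l) * (e l : ℚ[X]) := by
    refine ⟨fun s l => e.repr ⟨G s, hGm s⟩ l, fun s => ?_⟩
    have h1 := e.sum_repr ⟨G s, hGm s⟩
    have h2 := congrArg (fun x : U => (x : ℚ[X])) h1
    simp only [Submodule.coe_sum, Submodule.coe_smul] at h2
    rw [← h2]
    exact Finset.sum_congr rfl fun l _ => (Polynomial.C_mul' _ _).symm
  have hind : LinearIndependent ℚ (fun l => (e l : ℚ[X])) :=
    e.linearIndependent.map' U.subtype (Submodule.ker_subtype U)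
  have hgκ : ∀ j, g j = ∑ l, C (κ (Sum.inl j) l) * (e l : ℚ[X]) := by
    intro j
    rw [← hκ, hG]
    rfl
  have hghκ : ∀ a j, gh a j = ∑ l, C (κ (Sum.inr (a, j)) l) * (e l : ℚ[X]) := by
    intro a j
    rw [← hκ, hG]
    rfl
  -- the germs
  obtain ⟨β, hβ⟩ : ∃ β : ℕ → Fin m → PowerSeries ℚ, ∀ k l, β k l =
      ∑ j : Fin M, PowerSeries.C (κ (Sum.inl j) l) * bs z0 n h (b + 2 * j) 1 k +
        ∑ a, ∑ j : Fin M, PowerSeries.C (κ (Sum.inr (a, j)) l) *
          (bs (za a) n h (b + 2 * j) 1 k - bs 0 n h (b + 2 * j) 1 k) := ⟨_, fun _ _ => rfl⟩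
  obtain ⟨η, hη⟩ : ∃ η : Fin m → ℚ[X], ∀ l, η l =
      ∑ j : Fin M, C (κ (Sum.inl j) l) * etW n (b + 2 * M) (b + 2 * j) := ⟨_, fun _ => rfl⟩
  have hsum : ∀ k : ℕ, ∑ l, TS (-(k : ℚ)) (e l : ℚ[X]) * β k l =
      ∑ j, TS (-(k : ℚ)) (g j) * bs z0 n h (b + 2 * j) 1 k +
        ∑ a, ∑ j, TS (-(k : ℚ)) (gh a j) * (bs (za a) n h (b + 2 * j) 1 k -
          bs 0 n h (b + 2 * j) 1 k) := by
    intro k
    simp only [hβ, hgκ, hghκ, map_sum, map_mul, TS_C, mul_add, Finset.sum_add_distrib,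
      Finset.mul_sum, Finset.sum_mul]
    congr 1
    · rw [Finset.sum_comm]
      refine Finset.sum_congr rfl fun j _ => Finset.sum_congr rfl fun l _ => ?_
      ring
    · rw [Finset.sum_comm]
      refine Finset.sum_congr rfl fun a _ => ?_
      rw [Finset.sum_comm]
      refine Finset.sum_congr rfl fun j _ => Finset.sum_congr rfl fun l _ => ?_
      ring
  have hrec : ∀ k, k + 1 < ν → ∀ l, (PowerSeries.X : PowerSeries ℚ) ^ (2 * h) ∣
      TS (-(k : ℚ)) (PjW n (b + 2 * M)) * (β (k + 1) l - β k l) - TS (-(k : ℚ)) (η l) := by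
    intro k hk l
    have h1 : ∀ (z : ℕ → ℚ) (j : Fin M), (PowerSeries.X : PowerSeries ℚ) ^ (2 * h) ∣
        TS (-(k : ℚ)) (PjW n (b + 2 * M)) *
          (bs z n h (b + 2 * j) 1 (k + 1) - bs z n h (b + 2 * j) 1 k) -
        TS (-(k : ℚ)) (etW n (b + 2 * M) (b + 2 * j)) := fun z j =>
      t_rcw z n h b M j k hb hh j.2 (by omega)
    have h2 : TS (-(k : ℚ)) (PjW n (b + 2 * M)) * (β (k + 1) l - β k l) - TS (-(k : ℚ)) (η l) =
        ∑ j : Fin M, PowerSeries.C (κ (Sum.inl j) l) *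
          (TS (-(k : ℚ)) (PjW n (b + 2 * M)) *
            (bs z0 n h (b + 2 * j) 1 (k + 1) - bs z0 n h (b + 2 * j) 1 k) -
            TS (-(k : ℚ)) (etW n (b + 2 * M) (b + 2 * j))) +
        ∑ a, ∑ j : Fin M, PowerSeries.C (κ (Sum.inr (a, j)) l) *
          ((TS (-(k : ℚ)) (PjW n (b + 2 * M)) *
            (bs (za a) n h (b + 2 * j) 1 (k + 1) - bs (za a) n h (b + 2 * j) 1 k) -
            TS (-(k : ℚ)) (etW n (b + 2 * M) (b + 2 * j))) -
          (TS (-(k : ℚ)) (PjW n (b + 2 * M)) *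
            (bs 0 n h (b + 2 * j) 1 (k + 1) - bs 0 n h (b + 2 * j) 1 k) -
            TS (-(k : ℚ)) (etW n (b + 2 * M) (b + 2 * j)))) := by
      simp only [hβ, hη, map_sum, map_mul, TS_C]
      have e1 : ∀ (A1 A2 B1 B2 P E : PowerSeries ℚ), P * (A1 + B1 - (A2 + B2)) - E =
          (P * (A1 - A2) - E) + P * (B1 - B2) := by intros; ring
      rw [e1]
      congr 1
      · rw [← Finset.sum_sub_distrib, Finset.mul_sum, ← Finset.sum_sub_distrib]
        refine Finset.sum_congr rfl fun j _ => ?_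
        ring
      · rw [← Finset.sum_sub_distrib, Finset.mul_sum]
        refine Finset.sum_congr rfl fun a _ => ?_
        rw [← Finset.sum_sub_distrib, Finset.mul_sum]
        refine Finset.sum_congr rfl fun j _ => ?_
        ring
    rw [h2]
    refine dvd_add ?_ ?_
    · exact Finset.dvd_sum fun j _ => Dvd.dvd.mul_left (h1 z0 j) _
    · exact Finset.dvd_sum fun a _ => Finset.dvd_sum fun j _ =>
        Dvd.dvd.mul_left (dvd_sub (h1 (za a) j) (h1 0 j)) _
  have hmν : m < ν := lt_of_le_of_lt hUcard hm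
  have hze := t_ze t_cas m ν (2 * h) 0 (2 * (b + 2 * M)) (2 * (γ * n)) (2 * (w * n))
    (fun l => (e l : ℚ[X])) p (PjW n (b + 2 * M)) η β ∅ hind (PjW_ne_zero _ _)
    (fun l => hUdeg _ (e l).2) (by
      have : γ * n ≤ w * n := Nat.mul_le_mul_right _ hγw
      omega) hp (PjW_natDegree _ _)
    (fun l => by
      rw [hη]
      refine Polynomial.natDegree_sum_le_of_forall_le _ _ fun j _ => ?_
      exact (Polynomial.natDegree_C_mul_le _ _).trans (etW_natDegree _ _ _))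
    hmν
    (fun k hk => by rw [hsum k]; exact hid k hk)
    hrec
    (by simp)
    (by
      rw [Finset.card_empty, mul_zero, add_zero]
      have h1 : m * (2 * (γ * n)) ≤ (A + 1) * M * (2 * (γ * n)) := Nat.mul_le_mul_right _ hUcard
      have h2 : m * (2 * (b + 2 * M)) ≤ (A + 1) * M * (2 * (b + 2 * M)) :=
        Nat.mul_le_mul_right _ hUcard
      have h3 : 2 * h * (ν - (A + 1) * M) ≤ 2 * h * (ν - m) := Nat.mul_le_mul_left _ (by omega)
      omega)
  obtain ⟨u, v, hv, huv⟩ := hze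
  have hκ0 : ∀ l, ∀ j, κ (Sum.inl j) l = 0 := by
    intro l
    have h1 := t_pole n b M (fun j => κ (Sum.inl j) l) (u l) v (by omega) hv (by
      have := huv l
      rw [hη] at this
      exact this)
    intro j
    exact congrFun h1 j
  intro j
  rw [hgκ]
  refine Finset.sum_eq_zero fun l _ => ?_
  rw [hκ0 l j, C_0, zero_mul]

end

end Pool.Agent.H494.DZ
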